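import Pool.Agent.Helper7.BM.Goals2

/-!
# Project BM (MP_57df85_nt): counting solutions, combination of Runge and determinant method
-/

set_option autoImplicit false

open Finset Filter Topology

namespace Pool.Agent.Helper7.BM

/-- quadruples `(p,a,q,b)` with primes `p < q ≤ X`, `a, b ≥ 1`, `σ(p,a) = σ(q,b)` -/
def IsSol (X : ℕ) (s : ℕ × ℕ × ℕ × ℕ) : Prop :=
  s.1.Prime ∧ s.2.2.1.Prime ∧ s.1 < s.2.2.1 ∧ s.2.2.1 ≤ X ∧ 1 ≤ s.2.1 ∧ 1 ≤ s.2.2.2 ∧
    sg s.1 s.2.1 = sg s.2.2.1 s.2.2.2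

theorem mem_Pr {a b X : ℕ} {z : ℕ × ℕ} :
    z ∈ Pr a b X ↔ 2 ≤ z.1 ∧ z.1 < z.2 ∧ z.2 ≤ X ∧ sg z.1 a = sg z.2 b := by
  unfold Pr
  rw [mem_filter, mem_product, mem_range, mem_range]
  constructor
  · rintro ⟨⟨h1, h2⟩, h3, h4, h5⟩
    exact ⟨h3, h4, by omega, h5⟩
  · rintro ⟨h3, h4, h2, h5⟩
    exact ⟨⟨by omega, by omega⟩, h3, h4, h5⟩

theorem lt_exp (hS : StmtSGP) {x y a b : ℕ} (hx : 1 ≤ x) (hxy : x < y) (ha : 1 ≤ a)
    (h : sg x a = sg y b) : b < a := by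
  obtain ⟨-, -, -, h4, h5, -⟩ := hS
  by_contra hc
  have h1 := h4 a x y ha hx hxy
  rcases Nat.lt_or_ge a b with h2 | h2
  · have h3 := h5 a b y (by omega) h2
    omega
  · have : a = b := by omega
    subst this
    omega

theorem snd_inj (hS : StmtSGP) {a b X : ℕ} (hb : 1 ≤ b) {z w : ℕ × ℕ} (hz : z ∈ Pr a b X)
    (hw : w ∈ Pr a b X) (h : z.1 = w.1) : z = w := by
  obtain ⟨-, -, -, h4, -, -⟩ := hS
  rw [mem_Pr] at hz hw
  have h1 : sg z.2 b = sg w.2 b := by rw [← hz.2.2.2, ← hw.2.2.2, h]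
  have h2 : z.2 = w.2 := by
    rcases Nat.lt_trichotomy z.2 w.2 with h3 | h3 | h3
    · have := h4 b z.2 w.2 hb (by omega) h3; omega
    · exact h3
    · have := h4 b w.2 z.2 hb (by omega) h3; omega
  exact Prod.ext h h2

theorem card_le_of_fst (hS : StmtSGP) {a b X B : ℕ} (hb : 1 ≤ b) (T : Finset (ℕ × ℕ))
    (hT : T ⊆ Pr a b X) (h : ∀ z ∈ T, z.1 ≤ B) : T.card ≤ B + 1 := by
  have h1 : T.card ≤ (range (B + 1)).card := by
    apply card_le_card_of_injOn Prod.fst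
    · intro z hz
      have := h z hz
      simp only [coe_range, Set.mem_Iio]
      omega
    · intro z hz w hw hzw
      exact snd_inj hS hb (hT hz) (hT hw) hzw
  rwa [card_range] at h1

/-- parity of `σ(x,m)` for odd `x` -/
theorem sg_odd {x : ℕ} (hx : Odd x) (m : ℕ) : (Odd (sg x m) ↔ Even m) := by
  induction m with
  | zero => simp [sg]
  | succ m ih =>
    have h1 : sg x (m + 1) = sg x m + x ^ (m + 1) := by
      unfold sg
      rw [sum_range_succ]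
    have h2 : Odd (x ^ (m + 1)) := hx.pow
    rw [h1]
    constructor
    · intro h
      have h3 : ¬ Odd (sg x m) := by
        intro h4
        have := h4.add_odd h2
        exact (Nat.not_odd_iff_even.mpr this) h
      rw [ih] at h3
      exact Nat.not_even_iff_odd.mp h3 |>.add_one
    · intro h
      have h3 : ¬ Even m := by
        intro h4
        exact (Nat.not_odd_iff_even.mpr h) h4.add_one
      rw [← ih] at h3
      have h4 : Even (sg x m) := Nat.not_odd_iff_even.mp h3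
      exact h4.add_odd h2

theorem one_lt_b {X : ℕ} {s : ℕ × ℕ × ℕ × ℕ} (h : IsSol X s) : 2 ≤ s.2.2.2 := by
  obtain ⟨h1, h2, h3, h4, h5, h6, h7⟩ := h
  by_contra hc
  have hb : s.2.2.2 = 1 := by omega
  rw [hb] at h7
  have e1 : sg s.1 s.2.1 = 1 + s.1 * ∑ i ∈ range s.2.1, s.1 ^ i := by
    unfold sg
    rw [sum_range_succ', Finset.mul_sum]
    simp only [pow_zero, pow_succ']
    ring
  have e2 : sg s.2.2.1 1 = 1 + s.2.2.1 := by
    unfold sg
    rw [sum_range_succ, sum_range_succ]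
    simp
  rw [e1, e2] at h7
  have h8 : s.1 ∣ s.2.2.1 := ⟨∑ i ∈ range s.2.1, s.1 ^ i, (Nat.add_left_cancel h7).symm⟩
  rw [Nat.prime_dvd_prime_iff_eq h1 h2] at h8
  omega

/-- the bound for one pair of exponents with `gcd ≥ 2` or `α ≥ K` -/
theorem card_Pr_gcd (hS : StmtSGP) (hDM : StmtDM) (hCB : StmtCB) (hBIN : StmtBIN) (hRG : StmtRG)
    {A K Y X a b : ℕ} (hA : 1 ≤ A) (hK : 2 ≤ K) (hY : 1 ≤ Y) (hXY : X ≤ Y ^ K)
    (hP : 2 ^ (3 * Y ^ 2) ≤ (∏ l ∈ (Ioc (3 * Y ^ 2) ((3 * Y ^ 2) ^ 2)).filter Nat.Prime, l))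
    (hX : 1 ≤ X) (hAX : A ^ 2 * X ^ A < 2 ^ (3 * Y ^ 2)) (ha : a ≤ A) (hb : 1 ≤ b) (hba : b < a)
    (hd : 2 ≤ Nat.gcd a b ∨ K ≤ a / Nat.gcd a b) :
    (Pr a b X).card ≤ 324 * A ^ 3 * Y ^ 8 + 4 * (2 * K + 3) ^ K * A ^ K + 1 := by
  set d := Nat.gcd a b with hdd
  have hd0 : 0 < d := Nat.gcd_pos_of_pos_left _ (by omega)
  obtain ⟨α, hα⟩ : d ∣ a := Nat.gcd_dvd_left a b
  obtain ⟨β, hβ⟩ : d ∣ b := Nat.gcd_dvd_right a b
  have hαa : a / d = α := by rw [hα, Nat.mul_div_cancel_left _ hd0]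
  have hβb : b / d = β := by rw [hβ, Nat.mul_div_cancel_left _ hd0]
  have hcop : Nat.Coprime α β := by
    have := Nat.coprime_div_gcd_div_gcd (m := a) (n := b) hd0
    rwa [← hdd, hαa, hβb] at this
  have hβ0 : 0 < β := by
    rcases Nat.eq_zero_or_pos β with h | h
    · rw [h, mul_zero] at hβ; omega
    · exact h
  have hβα : β < α := by
    by_contra hc
    have : d * α ≤ d * β := Nat.mul_le_mul_left _ (by omega)
    omega
  rcases Nat.lt_or_ge α K with hαK | hαK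
  · -- Runge
    have hd2 : 2 ≤ d := by
      rcases hd with h | h
      · exact h
      · rw [hαa] at h; omega
    have hb1 : (Pr a b X).card ≤ 4 * (2 * α + 3) ^ α * d ^ α + 1 := by
      apply card_le_of_fst hS hb _ (Finset.Subset.refl _)
      intro z hz
      rw [mem_Pr] at hz
      refine hRG hBIN d α β z.1 z.2 hd2 hβ0 hβα hz.1 hz.2.1 ?_
      rw [← hα, ← hβ]
      exact hz.2.2.2
    have hdA : d ≤ A := by
      have : d ≤ a := Nat.le_of_dvd (by omega) (Nat.gcd_dvd_left a b)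
      omega
    have h1 : (2 * α + 3) ^ α ≤ (2 * K + 3) ^ K :=
      (Nat.pow_le_pow_left (by omega) α).trans (Nat.pow_le_pow_right (by omega) hαK.le)
    have h2 : d ^ α ≤ A ^ K :=
      (Nat.pow_le_pow_left hdA α).trans (Nat.pow_le_pow_right (by omega) hαK.le)
    have h3 : 4 * (2 * α + 3) ^ α * d ^ α ≤ 4 * (2 * K + 3) ^ K * A ^ K :=
      Nat.mul_le_mul (Nat.mul_le_mul_left _ h1) h2
    calc (Pr a b X).card ≤ 4 * (2 * α + 3) ^ α * d ^ α + 1 := hb1
      _ ≤ 4 * (2 * K + 3) ^ K * A ^ K + 1 := by omega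
      _ ≤ _ := by
        have := Nat.zero_le (324 * A ^ 3 * Y ^ 8)
        omega
  · have hbA : b ≤ A := by omega
    have h1 : b ^ 2 * X ^ b < 2 ^ (3 * Y ^ 2) := by
      refine lt_of_le_of_lt ?_ hAX
      exact Nat.mul_le_mul (Nat.pow_le_pow_left hbA 2) (Nat.pow_le_pow_right hX hbA)
    have h2 := hCB hDM hS K Y X a b d α β hK hY hXY hP hd0 hβ0 hcop hα hβ hαK hba.le h1
    have h3 : 324 * a ^ 3 * Y ^ 8 ≤ 324 * A ^ 3 * Y ^ 8 :=
      Nat.mul_le_mul_right _ (Nat.mul_le_mul_left _ (Nat.pow_le_pow_left ha 3))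
    omega

open Classical in
/-- general counting -/
theorem count_gen (R : ℕ × ℕ × ℕ × ℕ → Prop) (hS : StmtSGP) (X A B : ℕ)
    (hA : ∀ s, IsSol X s → s.2.1 ≤ A)
    (hB : ∀ a b : ℕ, a ≤ A → 1 ≤ b → b < a →
      ((Pr a b X).filter (fun z => IsSol X (z.1, a, z.2, b) ∧ R (z.1, a, z.2, b))).card ≤ B) :
    {s : ℕ × ℕ × ℕ × ℕ | IsSol X s ∧ R s}.Finite ∧
      {s : ℕ × ℕ × ℕ × ℕ | IsSol X s ∧ R s}.ncard ≤ (A + 1) ^ 2 * B := by
  set F : Finset (ℕ × ℕ × ℕ × ℕ) := ((range (A + 1)) ×ˢ (range (A + 1))).biUnion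
    (fun ab => ((Pr ab.1 ab.2 X).filter
      (fun z => IsSol X (z.1, ab.1, z.2, ab.2) ∧ R (z.1, ab.1, z.2, ab.2))).image
        (fun z => (z.1, ab.1, z.2, ab.2))) with hF
  have hsub : {s : ℕ × ℕ × ℕ × ℕ | IsSol X s ∧ R s} ⊆ (F : Set (ℕ × ℕ × ℕ × ℕ)) := by
    rintro ⟨p, a, q, b⟩ ⟨hs, hR⟩
    have h1 := hA _ hs
    obtain ⟨g1, g2, g3, g4, g5, g6, g7⟩ := hs
    simp only at g1 g2 g3 g4 g5 g6 g7 h1
    have hlt := lt_exp hS g1.one_lt.le g3 g5 g7
    rw [hF]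
    simp only [coe_biUnion, Set.mem_iUnion, coe_image, Set.mem_image]
    refine ⟨(a, b), ?_, (p, q), ?_, rfl⟩
    · simp only [coe_product, coe_range, Set.mem_prod, Set.mem_Iio]
      constructor <;> omega
    · rw [mem_coe, mem_filter, mem_Pr]
      exact ⟨⟨g1.two_le, g3, g4, g7⟩, ⟨g1, g2, g3, g4, g5, g6, g7⟩, hR⟩
  have hcard : F.card ≤ (A + 1) ^ 2 * B := by
    have h1 : F.card ≤ ((range (A + 1)) ×ˢ (range (A + 1))).card * B := by
      apply card_biUnion_le_card_mul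
      rintro ⟨a, b⟩ hab
      rw [mem_product, mem_range, mem_range] at hab
      simp only at hab ⊢
      refine card_image_le.trans ?_
      rcases Nat.eq_zero_or_pos b with hb0 | hb0
      · rw [filter_eq_empty_iff.mpr]
        · simp
        · rintro z - ⟨h, -⟩
          obtain ⟨-, -, -, -, -, h6, -⟩ := h
          simp only at h6
          omega
      · rcases Nat.lt_or_ge b a with hba | hba
        · exact hB a b (by omega) hb0 hba
        · rw [filter_eq_empty_iff.mpr]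
          · simp
          · rintro z - ⟨h, -⟩
            obtain ⟨g1, -, g3, -, g5, -, g7⟩ := h
            have := lt_exp hS g1.one_lt.le g3 g5 g7
            simp only at this
            omega
    rw [card_product, card_range] at h1
    rw [pow_two]
    exact h1
  refine ⟨F.finite_toSet.subset hsub, ?_⟩
  calc {s : ℕ × ℕ × ℕ × ℕ | IsSol X s ∧ R s}.ncard ≤ (F : Set (ℕ × ℕ × ℕ × ℕ)).ncard :=
        Set.ncard_le_ncard hsub F.finite_toSet
    _ = F.card := Set.ncard_coe_finset F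
    _ ≤ _ := hcard

/-- the condition of Theorem 2 -/
def R2 (s : ℕ × ℕ × ℕ × ℕ) : Prop := Odd (sg s.1 s.2.1) ∨ 2 ≤ Nat.gcd s.2.1 s.2.2.2

open Classical in
theorem count2 (hS : StmtSGP) (hDM : StmtDM) (hCB : StmtCB) (hBIN : StmtBIN) (hRG : StmtRG)
    {A K Y X : ℕ} (hA : 1 ≤ A) (hK : 2 ≤ K) (hY : 1 ≤ Y) (hXY : X ≤ Y ^ K)
    (hP : 2 ^ (3 * Y ^ 2) ≤ (∏ l ∈ (Ioc (3 * Y ^ 2) ((3 * Y ^ 2) ^ 2)).filter Nat.Prime, l))
    (hX : 1 ≤ X) (hAX : A ^ 2 * X ^ A < 2 ^ (3 * Y ^ 2))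
    (hAs : ∀ s, IsSol X s → s.2.1 ≤ A) :
    {s : ℕ × ℕ × ℕ × ℕ | IsSol X s ∧ R2 s}.Finite ∧
      {s : ℕ × ℕ × ℕ × ℕ | IsSol X s ∧ R2 s}.ncard ≤
        (A + 1) ^ 2 * (324 * A ^ 3 * Y ^ 8 + 4 * (2 * K + 3) ^ K * A ^ K + 3) := by
  refine count_gen R2 hS X A _ hAs ?_
  intro a b ha hb hba
  rcases Nat.lt_or_ge (Nat.gcd a b) 2 with hg | hg
  · -- only p = 2
    have h1 : ((Pr a b X).filter (fun z => IsSol X (z.1, a, z.2, b) ∧ R2 (z.1, a, z.2, b))).card
        ≤ 2 + 1 := by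
      apply card_le_of_fst hS hb _ (filter_subset _ _)
      intro z hz
      rw [mem_filter] at hz
      obtain ⟨-, h1, h2⟩ := hz
      obtain ⟨g1, g2, g3, g4, g5, g6, g7⟩ := h1
      simp only at g1 g2 g3 g4 g5 g6 g7
      by_contra hc
      have o1 : Odd z.1 := g1.odd_of_ne_two (by omega)
      have o2 : Odd z.2 := g2.odd_of_ne_two (by omega)
      rcases h2 with h2 | h2
      · simp only at h2
        have e1 : Even a := (sg_odd o1 a).mp h2
        have e2 : Even b := (sg_odd o2 b).mp (by rw [← g7]; exact h2)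
        have : 2 ∣ Nat.gcd a b := Nat.dvd_gcd e1.two_dvd e2.two_dvd
        have h3 : 0 < Nat.gcd a b := Nat.gcd_pos_of_pos_left _ (by omega)
        have := Nat.le_of_dvd h3 this
        omega
      · simp only at h2
        omega
    omega
  · have h1 := card_Pr_gcd hS hDM hCB hBIN hRG hA hK hY hXY hP hX hAX ha hb hba (Or.inl hg)
    have h2 : ((Pr a b X).filter
        (fun z => IsSol X (z.1, a, z.2, b) ∧ R2 (z.1, a, z.2, b))).card ≤ (Pr a b X).card :=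
      card_filter_le _ _
    omega

/-- the condition of Theorem 1 -/
def R1 (n : ℕ) (s : ℕ × ℕ × ℕ × ℕ) : Prop := ¬ (5 ≤ s.2.1 ∧ s.2.1 < n)

open Classical in
theorem count1 (hS : StmtSGP) (hDM : StmtDM) (hCB : StmtCB) (hBIN : StmtBIN) (hRG : StmtRG)
    {A K Y X n B : ℕ} (hA : 1 ≤ A) (hK : 2 ≤ K) (hY : 1 ≤ Y) (hXY : X ≤ Y ^ K)
    (hP : 2 ^ (3 * Y ^ 2) ≤ (∏ l ∈ (Ioc (3 * Y ^ 2) ((3 * Y ^ 2) ^ 2)).filter Nat.Prime, l))
    (hX : 1 ≤ X) (hAX : A ^ 2 * X ^ A < 2 ^ (3 * Y ^ 2))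
    (hAs : ∀ s, IsSol X s → s.2.1 ≤ A)
    (hB : ∀ a b : ℕ, n ≤ a → a < K → 2 ≤ b → b < a → Nat.Coprime a b → (Pr a b X).card ≤ B) :
    {s : ℕ × ℕ × ℕ × ℕ | IsSol X s ∧ R1 n s}.Finite ∧
      {s : ℕ × ℕ × ℕ × ℕ | IsSol X s ∧ R1 n s}.ncard ≤
        (A + 1) ^ 2 * (324 * A ^ 3 * Y ^ 8 + 4 * (2 * K + 3) ^ K * A ^ K + 3 + B) := by
  refine count_gen (R1 n) hS X A _ hAs ?_
  intro a b ha hb hba
  have hfl : ((Pr a b X).filter
      (fun z => IsSol X (z.1, a, z.2, b) ∧ R1 n (z.1, a, z.2, b))).card ≤ (Pr a b X).card :=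
    card_filter_le _ _
  have hg0 : 0 < Nat.gcd a b := Nat.gcd_pos_of_pos_left _ (by omega)
  by_cases hcase : 2 ≤ Nat.gcd a b ∨ K ≤ a / Nat.gcd a b
  · have h1 := card_Pr_gcd hS hDM hCB hBIN hRG hA hK hY hXY hP hX hAX ha hb hba hcase
    omega
  · have hg1 : Nat.gcd a b = 1 := by
      by_contra hc
      exact hcase (Or.inl (by omega))
    have haK : a < K := by
      by_contra hc
      refine hcase (Or.inr ?_)
      rw [hg1, Nat.div_one]
      omega
    by_cases hno : n ≤ a ∧ 2 ≤ b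
    · have := hB a b hno.1 haK hno.2 hba hg1
      omega
    · -- only p = 2
      have h1 : ((Pr a b X).filter
          (fun z => IsSol X (z.1, a, z.2, b) ∧ R1 n (z.1, a, z.2, b))).card ≤ 2 + 1 := by
        apply card_le_of_fst hS hb _ (filter_subset _ _)
        intro z hz
        rw [mem_filter] at hz
        obtain ⟨-, h1, h2⟩ := hz
        have hb2 := one_lt_b h1
        obtain ⟨g1, g2, g3, g4, g5, g6, g7⟩ := h1
        simp only at g1 g2 g3 g4 g5 g6 g7 hb2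
        by_contra hc
        have o1 : Odd z.1 := g1.odd_of_ne_two (by omega)
        have o2 : Odd z.2 := g2.odd_of_ne_two (by omega)
        have hpar : Even a ↔ Even b := by
          rw [← sg_odd o1 a, ← sg_odd o2 b, g7]
        have hna : ¬ Even a := by
          intro he
          have he2 := hpar.mp he
          have h3 : 2 ∣ Nat.gcd a b := Nat.dvd_gcd he.two_dvd he2.two_dvd
          have := Nat.le_of_dvd hg0 h3
          omega
        have hnb : ¬ Even b := fun he => hna (hpar.mpr he)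
        rw [Nat.not_even_iff_odd] at hna hnb
        obtain ⟨u, hu⟩ := hna
        obtain ⟨v, hv⟩ := hnb
        have ha5 : 5 ≤ a := by omega
        unfold R1 at h2
        simp only at h2
        apply hno
        constructor
        · by_contra hc2
          exact h2 ⟨ha5, by omega⟩
        · exact hb2
      omega

end Pool.Agent.Helper7.BM
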