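import Pool.Agent.Helper7.BM.Fin2

/-!
# Project BM (MP_57df85_nt): Theorem 1 from the packets
-/

set_option autoImplicit false

open Finset Filter Topology

namespace Pool.Agent.Helper7.BM

/-- uniform form of CC for all coprime pairs of exponents below `K` -/
theorem cc_unif (hS : StmtSGP) (hDM : StmtDM) (hCC : StmtCC) (hBD : StmtBD) (K k : ℕ)
    (hk : 2 ≤ k) : ∃ C : ℕ, ∀ a b X W V : ℕ, a < K → 2 ≤ b → b < a → Nat.Coprime a b → 1 ≤ W →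
      1 ≤ V → X ≤ W ^ a → W ^ a ≤ V ^ k → (Pr a b X).card ≤ C * (W * V) := by
  have h0 : ∀ a b : ℕ, ∃ C : ℕ, 2 ≤ b → b < a → Nat.Coprime a b → ∀ X W V : ℕ, 1 ≤ W → 1 ≤ V →
      X ≤ W ^ a → W ^ a ≤ V ^ k → (Pr a b X).card ≤ C * (W * V) := by
    intro a b
    by_cases h : 2 ≤ b ∧ b < a ∧ Nat.Coprime a b
    · obtain ⟨C, hC⟩ := hCC hDM hS hBD a b k h.1 h.2.1 h.2.2 hk
      exact ⟨C, fun _ _ _ => hC⟩
    · exact ⟨0, fun h1 h2 h3 => absurd ⟨h1, h2, h3⟩ h⟩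
  choose C hC using h0
  refine ⟨∑ a ∈ range K, ∑ b ∈ range K, C a b, ?_⟩
  intro a b X W V ha hb hba hcop hW hV h1 h2
  have h3 := hC a b hb hba hcop X W V hW hV h1 h2
  have h4 : C a b ≤ ∑ b ∈ range K, C a b :=
    single_le_sum (f := fun b => C a b) (fun _ _ => Nat.zero_le _) (mem_range.mpr (by omega))
  have h5 : ∑ b ∈ range K, C a b ≤ ∑ a ∈ range K, ∑ b ∈ range K, C a b :=
    single_le_sum (f := fun a => ∑ b ∈ range K, C a b) (fun _ _ => Nat.zero_le _)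
      (mem_range.mpr ha)
  exact h3.trans (Nat.mul_le_mul_right _ (h4.trans h5))

/-- choice of `W` and `V` -/
theorem exists_WV {X a n k : ℕ} (hX : 1 ≤ X) (hn : 1 ≤ n) (hna : n ≤ a) (hak : a ≤ k) :
    ∃ W V : ℕ, 1 ≤ W ∧ 1 ≤ V ∧ X ≤ W ^ a ∧ W ^ a ≤ V ^ k ∧
      (W : ℝ) * V ≤ 6 * (X : ℝ) ^ ((1 : ℝ) / n + 1 / k) := by
  have hXr : (1 : ℝ) ≤ X := by exact_mod_cast hX
  have hX0 : (0 : ℝ) < X := by linarith
  have ha0 : (0 : ℝ) < a := by exact_mod_cast (by omega : 0 < a)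
  have hk0 : (0 : ℝ) < k := by exact_mod_cast (by omega : 0 < k)
  have hn0 : (0 : ℝ) < n := by exact_mod_cast (by omega : 0 < n)
  set x1 : ℝ := (X : ℝ) ^ ((1 : ℝ) / a) with hx1
  have hx11 : 1 ≤ x1 := Real.one_le_rpow hXr (by positivity)
  have hx1a : x1 ^ a = X := by
    rw [hx1, ← Real.rpow_natCast, ← Real.rpow_mul hX0.le]
    rw [one_div, inv_mul_cancel₀ (by positivity), Real.rpow_one]
  set W : ℕ := ⌈x1⌉₊ with hW
  have hWge : x1 ≤ W := Nat.le_ceil _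
  have hWle : (W : ℝ) ≤ 2 * x1 := by
    have := Nat.ceil_lt_add_one (show 0 ≤ x1 by linarith)
    linarith
  have hW1 : 1 ≤ W := by
    have : (1 : ℝ) ≤ W := hx11.trans hWge
    exact_mod_cast this
  set x2 : ℝ := (X : ℝ) ^ ((1 : ℝ) / k) with hx2
  have hx21 : 1 ≤ x2 := Real.one_le_rpow hXr (by positivity)
  have hx2k : x2 ^ k = X := by
    rw [hx2, ← Real.rpow_natCast, ← Real.rpow_mul hX0.le]
    rw [one_div, inv_mul_cancel₀ (by positivity), Real.rpow_one]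
  set V : ℕ := ⌈2 * x2⌉₊ with hV
  have hVge : 2 * x2 ≤ V := Nat.le_ceil _
  have hVle : (V : ℝ) ≤ 3 * x2 := by
    have := Nat.ceil_lt_add_one (show 0 ≤ 2 * x2 by linarith)
    linarith
  have hV1 : 1 ≤ V := by
    have : (1 : ℝ) ≤ V := by linarith
    exact_mod_cast this
  refine ⟨W, V, hW1, hV1, ?_, ?_, ?_⟩
  · have : (X : ℝ) ≤ (W : ℝ) ^ a := by
      rw [← hx1a]
      exact pow_le_pow_left₀ (by linarith) hWge a
    exact_mod_cast this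
  · have : (W : ℝ) ^ a ≤ (V : ℝ) ^ k := by
      calc (W : ℝ) ^ a ≤ (2 * x1) ^ a := pow_le_pow_left₀ (by positivity) hWle a
        _ = 2 ^ a * X := by rw [mul_pow, hx1a]
        _ ≤ 2 ^ k * X := by
          apply mul_le_mul_of_nonneg_right _ hX0.le
          exact pow_le_pow_right₀ (by norm_num) hak
        _ = (2 * x2) ^ k := by rw [mul_pow, hx2k]
        _ ≤ (V : ℝ) ^ k := pow_le_pow_left₀ (by positivity) hVge k
    exact_mod_cast this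
  · have hx1n : x1 ≤ (X : ℝ) ^ ((1 : ℝ) / n) := by
      apply Real.rpow_le_rpow_of_exponent_le hXr
      exact one_div_le_one_div_of_le hn0 (by exact_mod_cast hna)
    calc (W : ℝ) * V ≤ (2 * x1) * (3 * x2) :=
          mul_le_mul hWle hVle (by positivity) (by positivity)
      _ = 6 * (x1 * x2) := by ring
      _ ≤ 6 * ((X : ℝ) ^ ((1 : ℝ) / n) * x2) := by
          apply mul_le_mul_of_nonneg_left _ (by norm_num)
          exact mul_le_mul_of_nonneg_right hx1n (by linarith)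
      _ = _ := by rw [hx2, ← Real.rpow_add hX0]

theorem ev1 (C0 : ℝ) (n0 m : ℕ) (η δ : ℝ) (hη : 0 < η) (hδ : 0 < δ) :
    ∀ᶠ X : ℕ in atTop, 1 ≤ X ∧ C0 * Real.log X ^ 115 + 2 ≤ Real.log X ^ 116 ∧
      (n0 : ℝ) ≤ (X : ℝ) ^ η ∧ 233 ≤ Real.log X ∧ Real.log X ^ 118 ≤ (X : ℝ) ^ η ∧
      Real.log X ^ m ≤ (X : ℝ) ^ δ := by
  have h1 : ∀ᶠ X : ℕ in atTop, C0 * Real.log X ^ 115 + 2 ≤ Real.log X ^ 116 ∧
      233 ≤ Real.log X := by
    have := (Real.tendsto_log_atTop.comp tendsto_natCast_atTop_atTop).eventually (ev2 C0 n0)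
    filter_upwards [this] with X hX
    exact ⟨hX.2.2.1, hX.2.2.2.2⟩
  have h2 : ∀ᶠ X : ℕ in atTop, (n0 : ℝ) ≤ (X : ℝ) ^ η :=
    ((tendsto_rpow_atTop hη).comp tendsto_natCast_atTop_atTop).eventually_ge_atTop _
  have h3 : ∀ (j : ℕ) (r : ℝ), 0 < r → ∀ᶠ X : ℕ in atTop, Real.log X ^ j ≤ (X : ℝ) ^ r := by
    intro j r hr
    have e1 := (isLittleO_log_rpow_rpow_atTop (j : ℝ) hr).bound (show (0 : ℝ) < 1 by norm_num)
    have e2 := tendsto_natCast_atTop_atTop.eventually e1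
    filter_upwards [e2, eventually_ge_atTop 1] with X hX hX1
    have hXr : (1 : ℝ) ≤ X := by exact_mod_cast hX1
    have hl : 0 ≤ Real.log X := Real.log_nonneg hXr
    rw [Real.rpow_natCast, one_mul, Real.norm_of_nonneg (by positivity),
      Real.norm_of_nonneg (by positivity)] at hX
    exact hX
  filter_upwards [h1, h2, h3 118 η hη, h3 m δ hδ, eventually_ge_atTop 1] with X a b c d e
  exact ⟨e, a.1, b, a.2, c, d⟩

/-- the main estimate for large `X` -/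
theorem large1 (hS : StmtSGP) (hDM : StmtDM) (hCB : StmtCB) (hBIN : StmtBIN) (hRG : StmtRG)
    {C0 : ℝ} (hC0 : 0 < C0)
    (hE : ∀ p q a b : ℕ, p.Prime → q.Prime → p < q → 1 ≤ a → 1 ≤ b → sg p a = sg q b →
      (a : ℝ) ≤ C0 * Real.log q ^ 115)
    {n0 : ℕ} (hPP : ∀ n : ℕ, n0 ≤ n → 2 ^ n ≤ ∏ l ∈ (Ioc n (n ^ 2)).filter Nat.Prime, l)
    {n K k C1 : ℕ} (hn : 5 ≤ n) (hK : K = 8 * n) (hk : K ≤ k)
    (hC1 : ∀ a b X W V : ℕ, a < K → 2 ≤ b → b < a → Nat.Coprime a b → 1 ≤ W →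
      1 ≤ V → X ≤ W ^ a → W ^ a ≤ V ^ k → (Pr a b X).card ≤ C1 * (W * V))
    {X : ℕ} (hX1 : 1 ≤ X)
    (h3 : C0 * Real.log X ^ 115 + 2 ≤ Real.log X ^ 116) (h4 : (n0 : ℝ) ≤ (X : ℝ) ^ ((1 : ℝ) / K))
    (h5 : 233 ≤ Real.log X) (h6 : Real.log X ^ 118 ≤ (X : ℝ) ^ ((1 : ℝ) / K)) :
    {s : ℕ × ℕ × ℕ × ℕ | IsSol X s ∧ R1 n s}.Finite ∧
      (({s : ℕ × ℕ × ℕ × ℕ | IsSol X s ∧ R1 n s}.ncard : ℕ) : ℝ) ≤
        (83000 + 4 * (2 * (K : ℝ) + 3) ^ K + 6 * C1) * Real.log X ^ (580 + 116 * K) *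
          (X : ℝ) ^ ((1 : ℝ) / n + 1 / k) := by
  set L : ℝ := Real.log X with hL
  have hXr : (1 : ℝ) ≤ X := by exact_mod_cast hX1
  have hX0 : (0 : ℝ) < X := by linarith
  have hL0 : 0 < L := by linarith
  have hL1 : 1 ≤ L := by linarith
  have expL : Real.exp L = X := Real.exp_log hX0
  have hK2 : 2 ≤ K := by omega
  have hK0 : (0 : ℝ) < K := by exact_mod_cast (by omega : 0 < K)
  have hn0' : (0 : ℝ) < n := by exact_mod_cast (by omega : 0 < n)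
  have hk0 : (0 : ℝ) < k := by exact_mod_cast (by omega : 0 < k)
  set x0 : ℝ := (X : ℝ) ^ ((1 : ℝ) / K) with hx0
  have hx01 : 1 ≤ x0 := Real.one_le_rpow hXr (by positivity)
  have hx0K : x0 ^ K = X := by
    rw [hx0, ← Real.rpow_natCast, ← Real.rpow_mul hX0.le]
    rw [one_div, inv_mul_cancel₀ (by positivity), Real.rpow_one]
  set A : ℕ := ⌊C0 * L ^ 115⌋₊ + 1 with hA
  set Y : ℕ := ⌈x0⌉₊ with hY
  have hA1 : 1 ≤ A := by omega
  have hAr : (A : ℝ) + 1 ≤ L ^ 116 := by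
    have : ((⌊C0 * L ^ 115⌋₊ : ℕ) : ℝ) ≤ C0 * L ^ 115 := Nat.floor_le (by positivity)
    rw [hA]; push_cast; linarith
  have hApos : (0 : ℝ) < A := by exact_mod_cast hA1
  have hAL : (A : ℝ) ≤ L ^ 116 := by linarith
  have hYge : x0 ≤ Y := Nat.le_ceil _
  have hYle : (Y : ℝ) ≤ 2 * x0 := by
    have := Nat.ceil_lt_add_one (show 0 ≤ x0 by linarith)
    linarith
  have hY1r : (1 : ℝ) ≤ Y := hx01.trans hYge
  have hY1 : 1 ≤ Y := by exact_mod_cast hY1r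
  have hXY : X ≤ Y ^ K := by
    have : (X : ℝ) ≤ (Y : ℝ) ^ K := by
      rw [← hx0K]
      exact pow_le_pow_left₀ (by linarith) hYge K
    exact_mod_cast this
  have hn0 : n0 ≤ 3 * Y ^ 2 := by
    have h7 : (n0 : ℝ) ≤ (Y : ℝ) := h4.trans hYge
    have h8 : n0 ≤ Y := by exact_mod_cast h7
    nlinarith
  have hP := hPP (3 * Y ^ 2) hn0
  have hAX : A ^ 2 * X ^ A < 2 ^ (3 * Y ^ 2) := by
    have e1 : (A : ℝ) ^ 2 * (X : ℝ) ^ A ≤ Real.exp (L ^ 118) := by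
      have e2 : (A : ℝ) ≤ Real.exp (A : ℝ) := by
        have := Real.add_one_le_exp (A : ℝ); linarith
      have e3 : (A : ℝ) ^ 2 ≤ Real.exp (2 * A) := by
        calc (A : ℝ) ^ 2 ≤ (Real.exp A) ^ 2 := pow_le_pow_left₀ hApos.le e2 2
          _ = Real.exp (2 * A) := by rw [← Real.exp_nat_mul]; norm_num
      have e4 : (X : ℝ) ^ A = Real.exp (A * L) := by
        rw [← expL, ← Real.exp_nat_mul]
      rw [e4]
      calc (A : ℝ) ^ 2 * Real.exp (A * L) ≤ Real.exp (2 * A) * Real.exp (A * L) :=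
            mul_le_mul_of_nonneg_right e3 (Real.exp_pos _).le
        _ = Real.exp (2 * A + A * L) := (Real.exp_add _ _).symm
        _ ≤ Real.exp (L ^ 118) := by
          apply Real.exp_le_exp.mpr
          have e50 : 2 + L ≤ L ^ 2 := by nlinarith
          have e5 : 2 * (A : ℝ) + A * L ≤ A * L ^ 2 := by
            have := mul_le_mul_of_nonneg_left e50 hApos.le
            linarith
          have e6 : (A : ℝ) * L ^ 2 ≤ L ^ 116 * L ^ 2 :=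
            mul_le_mul_of_nonneg_right hAL (by positivity)
          have e7 : L ^ 116 * L ^ 2 = L ^ 118 := by ring
          linarith
    have e2 : Real.exp (L ^ 118) < (2 : ℝ) ^ (3 * Y ^ 2) := by
      have e3 : (2 : ℝ) ^ (3 * Y ^ 2) = Real.exp ((3 * Y ^ 2 : ℕ) * Real.log 2) := by
        rw [Real.exp_nat_mul, Real.exp_log (by norm_num)]
      rw [e3]
      apply Real.exp_lt_exp.mpr
      have e6 := Real.log_two_gt_d9
      have e7 : (Y : ℝ) ≤ (Y : ℝ) ^ 2 := by nlinarith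
      have e8 : L ^ 118 ≤ Y := h6.trans hYge
      push_cast
      nlinarith
    have e3 : ((A ^ 2 * X ^ A : ℕ) : ℝ) < ((2 ^ (3 * Y ^ 2) : ℕ) : ℝ) := by
      push_cast
      exact lt_of_le_of_lt e1 e2
    exact_mod_cast e3
  set z : ℝ := (X : ℝ) ^ ((1 : ℝ) / n + 1 / k) with hz
  have hz1 : 1 ≤ z := Real.one_le_rpow hXr (by positivity)
  set B : ℕ := ⌊C1 * (6 * z)⌋₊ with hB
  have hBB : ∀ a b : ℕ, n ≤ a → a < K → 2 ≤ b → b < a → Nat.Coprime a b → (Pr a b X).card ≤ B := by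
    intro a b g1 g2 g3 g4 g5
    obtain ⟨W, V, w1, w2, w3, w4, w5⟩ := exists_WV hX1 (by omega) g1 (by omega : a ≤ k)
    have w6 := hC1 a b X W V g2 g3 g4 g5 w1 w2 w3 w4
    apply Nat.le_floor
    have w7 : ((Pr a b X).card : ℝ) ≤ C1 * ((W : ℝ) * V) := by exact_mod_cast w6
    refine w7.trans ?_
    exact mul_le_mul_of_nonneg_left w5 (Nat.cast_nonneg _)
  obtain ⟨hfin, hcard⟩ := count1 hS hDM hCB hBIN hRG hA1 hK2 hY1 hXY hP hX1 hAX
    (exp_le hC0 hE X) hBB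
  refine ⟨hfin, ?_⟩
  have hc : (({s : ℕ × ℕ × ℕ × ℕ | IsSol X s ∧ R1 n s}.ncard : ℕ) : ℝ) ≤
      ((A : ℝ) + 1) ^ 2 * (324 * (A : ℝ) ^ 3 * (Y : ℝ) ^ 8 +
        4 * (2 * (K : ℝ) + 3) ^ K * (A : ℝ) ^ K + 3 + B) := by exact_mod_cast hcard
  refine hc.trans ?_
  have hBr : (B : ℝ) ≤ C1 * (6 * z) := Nat.floor_le (by positivity)
  have b1 : ((A : ℝ) + 1) ^ 2 ≤ L ^ 232 := by
    calc ((A : ℝ) + 1) ^ 2 ≤ (L ^ 116) ^ 2 := pow_le_pow_left₀ (by positivity) hAr 2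
      _ = _ := by rw [← pow_mul]
  have b2 : (A : ℝ) ^ 3 ≤ L ^ 348 := by
    calc (A : ℝ) ^ 3 ≤ (L ^ 116) ^ 3 := pow_le_pow_left₀ (by positivity) hAL 3
      _ = _ := by rw [← pow_mul]
  have b3 : (Y : ℝ) ^ 8 ≤ 256 * z := by
    calc (Y : ℝ) ^ 8 ≤ (2 * x0) ^ 8 := pow_le_pow_left₀ (by positivity) hYle 8
      _ = 256 * x0 ^ 8 := by rw [mul_pow]; norm_num
      _ ≤ 256 * z := by
        apply mul_le_mul_of_nonneg_left _ (by norm_num)
        rw [hx0, hz, ← Real.rpow_natCast, ← Real.rpow_mul hX0.le]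
        apply Real.rpow_le_rpow_of_exponent_le hXr
        have e1 : (1 : ℝ) / K * ((8 : ℕ) : ℝ) = 1 / n := by
          rw [hK]; push_cast; field_simp
        rw [e1]
        have : (0 : ℝ) ≤ 1 / k := by positivity
        linarith
  have b4 : (A : ℝ) ^ K ≤ L ^ (116 * K) := by
    calc (A : ℝ) ^ K ≤ (L ^ 116) ^ K := pow_le_pow_left₀ (by positivity) hAL K
      _ = _ := by rw [← pow_mul]
  set P : ℝ := L ^ (348 + 116 * K) with hPdef
  have hP1 : 1 ≤ P := one_le_pow₀ hL1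
  have p1 : L ^ 348 ≤ P := pow_le_pow_right₀ hL1 (by omega)
  have p2 : L ^ (116 * K) ≤ P := pow_le_pow_right₀ hL1 (by omega)
  have hPz : 1 ≤ P * z := by nlinarith
  have t1 : 324 * (A : ℝ) ^ 3 * (Y : ℝ) ^ 8 ≤ 82944 * (P * z) := by
    calc 324 * (A : ℝ) ^ 3 * (Y : ℝ) ^ 8 ≤ 324 * P * (256 * z) := by
          apply mul_le_mul _ b3 (by positivity) (by positivity)
          exact mul_le_mul_of_nonneg_left (b2.trans p1) (by norm_num)
      _ = _ := by ring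
  have t2 : 4 * (2 * (K : ℝ) + 3) ^ K * (A : ℝ) ^ K ≤ 4 * (2 * (K : ℝ) + 3) ^ K * (P * z) := by
    apply mul_le_mul_of_nonneg_left _ (by positivity)
    calc (A : ℝ) ^ K ≤ P := b4.trans p2
      _ = P * 1 := (mul_one P).symm
      _ ≤ P * z := mul_le_mul_of_nonneg_left hz1 (by positivity)
  have t3 : (B : ℝ) ≤ 6 * C1 * (P * z) := by
    calc (B : ℝ) ≤ C1 * (6 * z) := hBr
      _ = 6 * C1 * (1 * z) := by ring
      _ ≤ 6 * C1 * (P * z) := by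
        apply mul_le_mul_of_nonneg_left _ (by positivity)
        exact mul_le_mul_of_nonneg_right hP1 (by linarith)
  have hsum : 324 * (A : ℝ) ^ 3 * (Y : ℝ) ^ 8 + 4 * (2 * (K : ℝ) + 3) ^ K * (A : ℝ) ^ K + 3 + B ≤
      (83000 + 4 * (2 * (K : ℝ) + 3) ^ K + 6 * C1) * (P * z) := by
    nlinarith
  calc ((A : ℝ) + 1) ^ 2 * (324 * (A : ℝ) ^ 3 * (Y : ℝ) ^ 8 +
        4 * (2 * (K : ℝ) + 3) ^ K * (A : ℝ) ^ K + 3 + B)
      ≤ L ^ 232 * ((83000 + 4 * (2 * (K : ℝ) + 3) ^ K + 6 * C1) * (P * z)) :=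
        mul_le_mul b1 hsum (by positivity) (by positivity)
    _ = (83000 + 4 * (2 * (K : ℝ) + 3) ^ K + 6 * C1) * L ^ (580 + 116 * K) * z := by
        rw [hPdef]
        have : L ^ (580 + 116 * K) = L ^ 232 * L ^ (348 + 116 * K) := by
          rw [← pow_add]; congr 1; omega
        rw [this]; ring

theorem fin1 (hS : StmtSGP) (hDM : StmtDM) (hCB : StmtCB) (hBIN : StmtBIN) (hRG : StmtRG)
    (hPP : StmtPP) (hCC : StmtCC) (hBD : StmtBD) (hE : ExpBound) (n : ℕ) (hn : 5 ≤ n) (ε : ℝ)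
    (hε : 0 < ε) :
    ∃ C : ℝ, ∀ X : ℕ, {s : ℕ × ℕ × ℕ × ℕ | IsSol X s ∧ R1 n s}.Finite ∧
      (({s : ℕ × ℕ × ℕ × ℕ | IsSol X s ∧ R1 n s}.ncard : ℕ) : ℝ) ≤
        C * (X : ℝ) ^ ((1 : ℝ) / n + ε) := by
  obtain ⟨C0, hC0, hE⟩ := hE
  obtain ⟨n0, hPP⟩ := hPP
  set K : ℕ := 8 * n with hK
  set k : ℕ := K + ⌈2 / ε⌉₊ with hk
  have hkK : K ≤ k := by omega
  have hk2 : 2 ≤ k := by omega
  have hkε : (1 : ℝ) / k ≤ ε / 2 := by
    have e1 : 2 / ε ≤ (k : ℝ) := by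
      rw [hk]; push_cast
      have := Nat.le_ceil (2 / ε)
      have h0 : (0 : ℝ) ≤ (K : ℝ) := Nat.cast_nonneg _
      linarith
    have e2 : (0 : ℝ) < 2 / ε := by positivity
    calc (1 : ℝ) / k ≤ 1 / (2 / ε) := one_div_le_one_div_of_le e2 e1
      _ = ε / 2 := by field_simp
  obtain ⟨C1, hC1⟩ := cc_unif hS hDM hCC hBD K k hk2
  have hK0 : (0 : ℝ) < K := by exact_mod_cast (by omega : 0 < K)
  have hn0' : (0 : ℝ) < n := by exact_mod_cast (by omega : 0 < n)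
  obtain ⟨X1, hX1⟩ := eventually_atTop.mp
    (ev1 C0 n0 (580 + 116 * K) (1 / K) (ε / 2) (by positivity) (by positivity))
  set D : ℝ := 83000 + 4 * (2 * (K : ℝ) + 3) ^ K + 6 * C1 with hD
  have hD0 : 0 ≤ D := by positivity
  have hlarge : ∀ X : ℕ, X1 ≤ X → {s : ℕ × ℕ × ℕ × ℕ | IsSol X s ∧ R1 n s}.Finite ∧
      (({s : ℕ × ℕ × ℕ × ℕ | IsSol X s ∧ R1 n s}.ncard : ℕ) : ℝ) ≤
        D * (X : ℝ) ^ ((1 : ℝ) / n + ε) := by
    intro X hX
    obtain ⟨a1, a2, a3, a4, a5, a6⟩ := hX1 X hX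
    obtain ⟨f1, f2⟩ := large1 hS hDM hCB hBIN hRG hC0 hE hPP hn hK hkK hC1 a1 a2 a3 a4 a5
    refine ⟨f1, f2.trans ?_⟩
    have hXr : (1 : ℝ) ≤ X := by exact_mod_cast a1
    have hX0 : (0 : ℝ) < X := by linarith
    rw [mul_assoc]
    apply mul_le_mul_of_nonneg_left _ hD0
    calc Real.log X ^ (580 + 116 * K) * (X : ℝ) ^ ((1 : ℝ) / n + 1 / k)
        ≤ (X : ℝ) ^ (ε / 2) * (X : ℝ) ^ ((1 : ℝ) / n + 1 / k) :=
          mul_le_mul_of_nonneg_right a6 (by positivity)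
      _ = (X : ℝ) ^ (ε / 2 + ((1 : ℝ) / n + 1 / k)) := (Real.rpow_add hX0 _ _).symm
      _ ≤ _ := by
        apply Real.rpow_le_rpow_of_exponent_le hXr
        linarith
  obtain ⟨hfin, -⟩ := hlarge X1 le_rfl
  set N1 : ℕ := {s : ℕ × ℕ × ℕ × ℕ | IsSol X1 s ∧ R1 n s}.ncard with hN1
  refine ⟨max D N1, ?_⟩
  intro X
  have hpow : 0 ≤ (X : ℝ) ^ ((1 : ℝ) / n + ε) := by positivity
  rcases le_total X1 X with h | h
  · obtain ⟨f1, f2⟩ := hlarge X h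
    exact ⟨f1, f2.trans (mul_le_mul_of_nonneg_right (le_max_left _ _) hpow)⟩
  · have hsub : {s : ℕ × ℕ × ℕ × ℕ | IsSol X s ∧ R1 n s} ⊆
        {s : ℕ × ℕ × ℕ × ℕ | IsSol X1 s ∧ R1 n s} := fun s hs => ⟨hs.1.mono h, hs.2⟩
    refine ⟨hfin.subset hsub, ?_⟩
    rcases Nat.eq_zero_or_pos X with h0 | h0
    · have hempty : {s : ℕ × ℕ × ℕ × ℕ | IsSol X s ∧ R1 n s} = ∅ := by
        rw [Set.eq_empty_iff_forall_notMem]
        rintro s ⟨⟨g1, g2, g3, g4, -⟩, -⟩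
        omega
      rw [hempty, Set.ncard_empty]
      have : (0 : ℝ) ≤ max D (N1 : ℝ) := le_trans hD0 (le_max_left _ _)
      push_cast
      positivity
    · have h1 : (({s : ℕ × ℕ × ℕ × ℕ | IsSol X s ∧ R1 n s}.ncard : ℕ) : ℝ) ≤ (N1 : ℝ) := by
        exact_mod_cast Set.ncard_le_ncard hsub hfin
      have hXr : (1 : ℝ) ≤ X := by exact_mod_cast h0
      have h2 : 1 ≤ (X : ℝ) ^ ((1 : ℝ) / n + ε) := Real.one_le_rpow hXr (by positivity)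
      calc (({s : ℕ × ℕ × ℕ × ℕ | IsSol X s ∧ R1 n s}.ncard : ℕ) : ℝ) ≤ (N1 : ℝ) := h1
        _ = (N1 : ℝ) * 1 := (mul_one _).symm
        _ ≤ (N1 : ℝ) * (X : ℝ) ^ ((1 : ℝ) / n + ε) :=
            mul_le_mul_of_nonneg_left h2 (Nat.cast_nonneg _)
        _ ≤ _ := mul_le_mul_of_nonneg_right (le_max_right _ _) hpow

end Pool.Agent.Helper7.BM
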