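import Pool.Agent.Helper7.BM.Count

/-!
# Project BM (MP_57df85_nt): Theorem 2 from the packets
-/

set_option autoImplicit false

open Finset Filter Topology

namespace Pool.Agent.Helper7.BM

/-- the bound for the exponents (conclusion of EXF) -/
def ExpBound : Prop := ∃ C : ℝ, 0 < C ∧ ∀ p q a b : ℕ, p.Prime → q.Prime → p < q → 1 ≤ a → 1 ≤ b →
  sg p a = sg q b → (a : ℝ) ≤ C * Real.log q ^ 115

theorem IsSol.mono {X X' : ℕ} (h : X ≤ X') {s : ℕ × ℕ × ℕ × ℕ} (hs : IsSol X s) : IsSol X' s :=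
  ⟨hs.1, hs.2.1, hs.2.2.1, hs.2.2.2.1.trans h, hs.2.2.2.2⟩

/-- the exponents of solutions with `q ≤ X` -/
theorem exp_le {C0 : ℝ} (hC0 : 0 < C0)
    (h : ∀ p q a b : ℕ, p.Prime → q.Prime → p < q → 1 ≤ a → 1 ≤ b → sg p a = sg q b →
      (a : ℝ) ≤ C0 * Real.log q ^ 115) (X : ℕ) :
    ∀ s, IsSol X s → s.2.1 ≤ ⌊C0 * Real.log X ^ 115⌋₊ + 1 := by
  rintro ⟨p, a, q, b⟩ ⟨h1, h2, h3, h4, h5, h6, h7⟩
  simp only at h1 h2 h3 h4 h5 h6 h7 ⊢
  have h8 := h p q a b h1 h2 h3 h5 h6 h7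
  have hq : (1 : ℝ) ≤ q := by exact_mod_cast h2.one_lt.le
  have h9 : Real.log q ≤ Real.log X :=
    Real.log_le_log (by linarith) (by exact_mod_cast h4)
  have h10 : Real.log q ^ 115 ≤ Real.log X ^ 115 :=
    pow_le_pow_left₀ (Real.log_nonneg hq) h9 115
  have h11 : (a : ℝ) ≤ C0 * Real.log X ^ 115 := h8.trans (mul_le_mul_of_nonneg_left h10 hC0.le)
  have := Nat.le_floor h11
  omega

theorem ev2 (C0 : ℝ) (n0 : ℕ) : ∀ᶠ L : ℝ in atTop, 1 ≤ Real.log L ∧ 160000 * Real.log L ≤ L ∧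
    C0 * L ^ 115 + 2 ≤ L ^ 116 ∧ (n0 : ℝ) ≤ L ∧ 233 ≤ L := by
  have h1 : ∀ᶠ L : ℝ in atTop, 1 ≤ Real.log L := Real.tendsto_log_atTop.eventually_ge_atTop 1
  have h2 : ∀ᶠ L : ℝ in atTop, 160000 * Real.log L ≤ L := by
    have := (Real.isLittleO_log_id_atTop).bound (show (0 : ℝ) < 1 / 160000 by norm_num)
    filter_upwards [this, h1, eventually_ge_atTop (0 : ℝ)] with L hL h1 h0
    rw [Real.norm_of_nonneg (by linarith), id, Real.norm_of_nonneg h0] at hL
    linarith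
  have h3 : ∀ᶠ L : ℝ in atTop, C0 * L ^ 115 + 2 ≤ L ^ 116 := by
    filter_upwards [eventually_ge_atTop (|C0| + 2)] with L hL
    have hL1 : 1 ≤ L := by linarith [abs_nonneg C0]
    have h4 : (1 : ℝ) ≤ L ^ 115 := one_le_pow₀ hL1
    have h5 : C0 ≤ |C0| := le_abs_self _
    calc C0 * L ^ 115 + 2 ≤ |C0| * L ^ 115 + 2 * L ^ 115 := by nlinarith
      _ = (|C0| + 2) * L ^ 115 := by ring
      _ ≤ L * L ^ 115 := by
        apply mul_le_mul_of_nonneg_right hL (by linarith)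
      _ = L ^ 116 := by ring
  filter_upwards [h1, h2, h3, eventually_ge_atTop (n0 : ℝ), eventually_ge_atTop (233 : ℝ)] with
    L a b c d e
  exact ⟨a, b, c, d, e⟩

/-- the main estimate for large `X` -/
theorem large2 (hS : StmtSGP) (hDM : StmtDM) (hCB : StmtCB) (hBIN : StmtBIN) (hRG : StmtRG)
    {C0 : ℝ} (hC0 : 0 < C0)
    (hE : ∀ p q a b : ℕ, p.Prime → q.Prime → p < q → 1 ≤ a → 1 ≤ b → sg p a = sg q b →
      (a : ℝ) ≤ C0 * Real.log q ^ 115)
    {n0 : ℕ} (hPP : ∀ n : ℕ, n0 ≤ n → 2 ^ n ≤ ∏ l ∈ (Ioc n (n ^ 2)).filter Nat.Prime, l)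
    {X : ℕ} (hX : 3 ≤ X)
    (h1 : 1 ≤ Real.log (Real.log X)) (h2 : 160000 * Real.log (Real.log X) ≤ Real.log X)
    (h3 : C0 * Real.log X ^ 115 + 2 ≤ Real.log X ^ 116) (h4 : (n0 : ℝ) ≤ Real.log X)
    (h5 : 233 ≤ Real.log X) :
    {s : ℕ × ℕ × ℕ × ℕ | IsSol X s ∧ R2 s}.Finite ∧
      (({s : ℕ × ℕ × ℕ × ℕ | IsSol X s ∧ R2 s}.ncard : ℕ) : ℝ) ≤
        Real.exp (1000 * Real.sqrt (Real.log X * Real.log (Real.log X))) := by
  set L : ℝ := Real.log X with hL
  set l : ℝ := Real.log L with hl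
  have hX0 : (0 : ℝ) < X := by exact_mod_cast (by omega : 0 < X)
  have hL0 : 0 < L := by linarith
  have hl0 : 0 < l := by linarith
  have expL : Real.exp L = X := Real.exp_log hX0
  have expl : Real.exp l = L := Real.exp_log hL0
  set s0 : ℝ := Real.sqrt (L / l) with hs0
  set w : ℝ := Real.sqrt (L * l) with hw
  have hs0sq : s0 * s0 = L / l := Real.mul_self_sqrt (by positivity)
  have hwsq : w * w = L * l := Real.mul_self_sqrt (by positivity)
  have hs400 : 400 ≤ s0 := by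
    rw [hs0]
    apply Real.le_sqrt_of_sq_le
    rw [le_div_iff₀ hl0]
    nlinarith
  have hs0pos : 0 < s0 := by linarith
  have hws : w = s0 * l := by
    rw [hw, Real.sqrt_eq_iff_mul_self_eq (by positivity) (by positivity)]
    have : s0 * l * (s0 * l) = (s0 * s0) * l * l := by ring
    rw [this, hs0sq]
    field_simp
  have hLs : L = w * s0 := by
    rw [hws]
    have : s0 * l * s0 = (s0 * s0) * l := by ring
    rw [this, hs0sq]
    field_simp
  have hwl : 400 * l ≤ w := by rw [hws]; nlinarith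
  have hw1 : 1 ≤ w := by nlinarith
  set A : ℕ := ⌊C0 * L ^ 115⌋₊ + 1 with hA
  set K : ℕ := ⌈s0⌉₊ + 1 with hK
  set Y : ℕ := ⌈Real.exp (L / K)⌉₊ with hY
  have hA1 : 1 ≤ A := by omega
  have hAr : (A : ℝ) + 1 ≤ L ^ 116 := by
    have : ((⌊C0 * L ^ 115⌋₊ : ℕ) : ℝ) ≤ C0 * L ^ 115 := Nat.floor_le (by positivity)
    rw [hA]; push_cast; linarith
  have hK1 : s0 + 1 ≤ (K : ℝ) := by
    rw [hK]; push_cast
    linarith [Nat.le_ceil s0]
  have hK2 : (K : ℝ) ≤ 2 * s0 := by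
    rw [hK]; push_cast
    have := Nat.ceil_lt_add_one hs0pos.le
    linarith
  have hK0 : (0 : ℝ) < K := by linarith
  have hKge : 2 ≤ K := by
    have : (2 : ℝ) ≤ (K : ℝ) := by linarith
    exact_mod_cast this
  have hKL : 2 * (K : ℝ) + 3 ≤ L := by
    have h6 : 400 ≤ w := by nlinarith
    nlinarith
  have hexp1 : 1 ≤ Real.exp (L / K) := Real.one_le_exp (by positivity)
  have hYge : Real.exp (L / K) ≤ Y := Nat.le_ceil _
  have hYle : (Y : ℝ) ≤ 2 * Real.exp (L / K) := by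
    have := Nat.ceil_lt_add_one (show 0 ≤ Real.exp (L / K) by positivity)
    linarith
  have hY1 : 1 ≤ Y := by
    have : (1 : ℝ) ≤ Y := hexp1.trans hYge
    exact_mod_cast this
  have hLK : L / K ≤ w := by
    rw [div_le_iff₀ hK0]; nlinarith
  have hLK2 : w / 2 ≤ L / K := by
    rw [le_div_iff₀ hK0]; nlinarith
  have hYw : (Y : ℝ) ≤ 2 * Real.exp w := by
    have := Real.exp_le_exp.mpr hLK
    linarith
  have hYbig : L ^ 200 ≤ Y := by
    have e1 : L ^ 200 = Real.exp (200 * l) := by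
      rw [← expl, ← Real.exp_nat_mul]; norm_num
    rw [e1]
    refine le_trans (Real.exp_le_exp.mpr ?_) hYge
    linarith
  have hXY : X ≤ Y ^ K := by
    have : (X : ℝ) ≤ (Y : ℝ) ^ K := by
      calc (X : ℝ) = Real.exp L := expL.symm
        _ = Real.exp (L / K) ^ K := by
          rw [← Real.exp_nat_mul]; congr 1; field_simp
        _ ≤ (Y : ℝ) ^ K := pow_le_pow_left₀ (by positivity) hYge K
    exact_mod_cast this
  have hL1 : 1 ≤ L := by linarith
  have hYL : L ≤ Y := by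
    have : L ≤ L ^ 200 := le_self_pow₀ hL1 (by norm_num)
    linarith
  have hn0 : n0 ≤ 3 * Y ^ 2 := by
    have : (n0 : ℝ) ≤ (Y : ℝ) := h4.trans hYL
    have h6 : n0 ≤ Y := by exact_mod_cast this
    nlinarith
  have hP := hPP (3 * Y ^ 2) hn0
  have hApos : (0 : ℝ) < A := by exact_mod_cast hA1
  have hAL : (A : ℝ) ≤ L ^ 116 := by linarith
  have hAX : A ^ 2 * X ^ A < 2 ^ (3 * Y ^ 2) := by
    have e1 : (A : ℝ) ^ 2 * (X : ℝ) ^ A ≤ Real.exp (L ^ 118) := by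
      have e2 : (A : ℝ) ≤ Real.exp (A : ℝ) := by
        have := Real.add_one_le_exp (A : ℝ); linarith
      have e3 : (A : ℝ) ^ 2 ≤ Real.exp (2 * A) := by
        calc (A : ℝ) ^ 2 ≤ (Real.exp A) ^ 2 := pow_le_pow_left₀ hApos.le e2 2
          _ = Real.exp (2 * A) := by rw [← Real.exp_nat_mul]; norm_num
      have e4 : (X : ℝ) ^ A = Real.exp (A * L) := by
        rw [← expL, ← Real.exp_nat_mul]
      rw [e4]
      calc (A : ℝ) ^ 2 * Real.exp (A * L) ≤ Real.exp (2 * A) * Real.exp (A * L) :=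
            mul_le_mul_of_nonneg_right e3 (Real.exp_pos _).le
        _ = Real.exp (2 * A + A * L) := (Real.exp_add _ _).symm
        _ ≤ Real.exp (L ^ 118) := by
          apply Real.exp_le_exp.mpr
          have e50 : 2 + L ≤ L ^ 2 := by nlinarith
          have e5 : 2 * (A : ℝ) + A * L ≤ A * L ^ 2 := by
            have := mul_le_mul_of_nonneg_left e50 hApos.le
            linarith
          have e6 : (A : ℝ) * L ^ 2 ≤ L ^ 116 * L ^ 2 :=
            mul_le_mul_of_nonneg_right hAL (by positivity)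
          have e7 : L ^ 116 * L ^ 2 = L ^ 118 := by ring
          linarith
    have e2 : Real.exp (L ^ 118) < (2 : ℝ) ^ (3 * Y ^ 2) := by
      have e3 : (2 : ℝ) ^ (3 * Y ^ 2) = Real.exp ((3 * Y ^ 2 : ℕ) * Real.log 2) := by
        rw [Real.exp_nat_mul, Real.exp_log (by norm_num)]
      rw [e3]
      apply Real.exp_lt_exp.mpr
      have e4 : L ^ 118 ≤ L ^ 200 := pow_le_pow_right₀ hL1 (by norm_num)
      have e5 : (1 : ℝ) ≤ Y := by exact_mod_cast hY1
      have e6 := Real.log_two_gt_d9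
      have e7 : (Y : ℝ) ≤ (Y : ℝ) ^ 2 := by nlinarith
      push_cast
      nlinarith
    have e3 : ((A ^ 2 * X ^ A : ℕ) : ℝ) < ((2 ^ (3 * Y ^ 2) : ℕ) : ℝ) := by
      push_cast
      exact lt_of_le_of_lt e1 e2
    exact_mod_cast e3
  obtain ⟨hfin, hcard⟩ := count2 hS hDM hCB hBIN hRG hA1 hKge hY1 hXY hP (by omega) hAX
    (exp_le hC0 hE X)
  refine ⟨hfin, ?_⟩
  have hc : (({s : ℕ × ℕ × ℕ × ℕ | IsSol X s ∧ R2 s}.ncard : ℕ) : ℝ) ≤
      ((A : ℝ) + 1) ^ 2 * (324 * (A : ℝ) ^ 3 * (Y : ℝ) ^ 8 +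
        4 * (2 * (K : ℝ) + 3) ^ K * (A : ℝ) ^ K + 3) := by exact_mod_cast hcard
  refine hc.trans ?_
  have b1 : ((A : ℝ) + 1) ^ 2 ≤ Real.exp (232 * w) := by
    calc ((A : ℝ) + 1) ^ 2 ≤ (L ^ 116) ^ 2 := pow_le_pow_left₀ (by positivity) hAr 2
      _ = Real.exp (232 * l) := by
        rw [← pow_mul, ← expl, ← Real.exp_nat_mul]; norm_num
      _ ≤ _ := Real.exp_le_exp.mpr (by linarith)
  have b2 : (A : ℝ) ^ 3 ≤ Real.exp (348 * w) := by
    calc (A : ℝ) ^ 3 ≤ (L ^ 116) ^ 3 := pow_le_pow_left₀ (by positivity) hAL 3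
      _ = Real.exp (348 * l) := by
        rw [← pow_mul, ← expl, ← Real.exp_nat_mul]; norm_num
      _ ≤ _ := Real.exp_le_exp.mpr (by linarith)
  have b3 : (Y : ℝ) ^ 8 ≤ 256 * Real.exp (8 * w) := by
    calc (Y : ℝ) ^ 8 ≤ (2 * Real.exp w) ^ 8 := pow_le_pow_left₀ (by positivity) hYw 8
      _ = 256 * Real.exp (8 * w) := by
        rw [mul_pow, ← Real.exp_nat_mul]; norm_num
  have b4 : (2 * (K : ℝ) + 3) ^ K * (A : ℝ) ^ K ≤ Real.exp (234 * w) := by
    rw [← mul_pow]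
    calc ((2 * (K : ℝ) + 3) * A) ^ K ≤ (L * L ^ 116) ^ K := by
          apply pow_le_pow_left₀ (by positivity)
          exact mul_le_mul hKL hAL hApos.le hL0.le
      _ = Real.exp (K * (117 * l)) := by
        have : L * L ^ 116 = Real.exp (117 * l) := by
          have e : L * L ^ 116 = L ^ 117 := by ring
          rw [e, ← expl, ← Real.exp_nat_mul]; norm_num
        rw [this, ← Real.exp_nat_mul]
      _ ≤ _ := by
        apply Real.exp_le_exp.mpr
        rw [hws]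
        nlinarith
  have c1 : (82944 : ℝ) ≤ Real.exp (12 * w) := by
    have e1 : (2.7182818283 : ℝ) < Real.exp 1 := Real.exp_one_gt_d9
    calc (82944 : ℝ) ≤ (2.7182818283 : ℝ) ^ 12 := by norm_num
      _ ≤ (Real.exp 1) ^ 12 := pow_le_pow_left₀ (by norm_num) e1.le 12
      _ = Real.exp 12 := by rw [← Real.exp_nat_mul]; norm_num
      _ ≤ _ := Real.exp_le_exp.mpr (by linarith)
  have c2 : (4 : ℝ) ≤ Real.exp (2 * w) := by
    have e1 : (2.7182818283 : ℝ) < Real.exp 1 := Real.exp_one_gt_d9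
    calc (4 : ℝ) ≤ (2.7182818283 : ℝ) ^ 2 := by norm_num
      _ ≤ (Real.exp 1) ^ 2 := pow_le_pow_left₀ (by norm_num) e1.le 2
      _ = Real.exp 2 := by rw [← Real.exp_nat_mul]; norm_num
      _ ≤ _ := Real.exp_le_exp.mpr (by linarith)
  have d1 : 324 * (A : ℝ) ^ 3 * (Y : ℝ) ^ 8 ≤ Real.exp (368 * w) := by
    calc 324 * (A : ℝ) ^ 3 * (Y : ℝ) ^ 8
        ≤ 324 * Real.exp (348 * w) * (256 * Real.exp (8 * w)) := by
          apply mul_le_mul _ b3 (by positivity) (by positivity)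
          exact mul_le_mul_of_nonneg_left b2 (by norm_num)
      _ = 82944 * (Real.exp (348 * w) * Real.exp (8 * w)) := by ring
      _ ≤ Real.exp (12 * w) * (Real.exp (348 * w) * Real.exp (8 * w)) :=
          mul_le_mul_of_nonneg_right c1 (by positivity)
      _ = Real.exp (368 * w) := by
        rw [← Real.exp_add, ← Real.exp_add]; congr 1; ring
  have d2 : 4 * (2 * (K : ℝ) + 3) ^ K * (A : ℝ) ^ K ≤ Real.exp (368 * w) := by
    calc 4 * (2 * (K : ℝ) + 3) ^ K * (A : ℝ) ^ K = 4 * ((2 * (K : ℝ) + 3) ^ K * (A : ℝ) ^ K) := by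
          ring
      _ ≤ Real.exp (2 * w) * Real.exp (234 * w) :=
          mul_le_mul c2 b4 (by positivity) (by positivity)
      _ = Real.exp (236 * w) := by rw [← Real.exp_add]; congr 1; ring
      _ ≤ _ := Real.exp_le_exp.mpr (by linarith)
  have d3 : (3 : ℝ) ≤ Real.exp (368 * w) := by
    have : Real.exp (2 * w) ≤ Real.exp (368 * w) := Real.exp_le_exp.mpr (by linarith)
    linarith
  calc ((A : ℝ) + 1) ^ 2 * (324 * (A : ℝ) ^ 3 * (Y : ℝ) ^ 8 +
        4 * (2 * (K : ℝ) + 3) ^ K * (A : ℝ) ^ K + 3)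
      ≤ Real.exp (232 * w) * (4 * Real.exp (368 * w)) := by
        apply mul_le_mul b1 _ (by positivity) (by positivity)
        linarith [Real.exp_pos (368 * w)]
    _ ≤ Real.exp (232 * w) * (Real.exp (2 * w) * Real.exp (368 * w)) := by
        apply mul_le_mul_of_nonneg_left _ (by positivity)
        exact mul_le_mul_of_nonneg_right c2 (by positivity)
    _ = Real.exp (602 * w) := by
        rw [← Real.exp_add, ← Real.exp_add]; congr 1; ring
    _ ≤ Real.exp (1000 * w) := Real.exp_le_exp.mpr (by linarith)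

theorem fin2 (hS : StmtSGP) (hDM : StmtDM) (hCB : StmtCB) (hBIN : StmtBIN) (hRG : StmtRG)
    (hPP : StmtPP) (hE : ExpBound) :
    ∃ C : ℝ, ∀ X : ℕ, 3 ≤ X → {s : ℕ × ℕ × ℕ × ℕ | IsSol X s ∧ R2 s}.Finite ∧
      (({s : ℕ × ℕ × ℕ × ℕ | IsSol X s ∧ R2 s}.ncard : ℕ) : ℝ) ≤
        Real.exp (C * Real.sqrt (Real.log X * Real.log (Real.log X))) := by
  obtain ⟨C0, hC0, hE⟩ := hE
  obtain ⟨n0, hPP⟩ := hPP
  have hev : ∀ᶠ X : ℕ in atTop, 1 ≤ Real.log (Real.log X) ∧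
      160000 * Real.log (Real.log X) ≤ Real.log X ∧
      C0 * Real.log X ^ 115 + 2 ≤ Real.log X ^ 116 ∧ (n0 : ℝ) ≤ Real.log X ∧
      233 ≤ Real.log X :=
    (Real.tendsto_log_atTop.comp tendsto_natCast_atTop_atTop).eventually (ev2 C0 n0)
  obtain ⟨X1, hX1⟩ := eventually_atTop.mp hev
  set X2 := max X1 3 with hX2
  have hlarge : ∀ X : ℕ, X2 ≤ X → {s : ℕ × ℕ × ℕ × ℕ | IsSol X s ∧ R2 s}.Finite ∧
      (({s : ℕ × ℕ × ℕ × ℕ | IsSol X s ∧ R2 s}.ncard : ℕ) : ℝ) ≤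
        Real.exp (1000 * Real.sqrt (Real.log X * Real.log (Real.log X))) := by
    intro X hX
    obtain ⟨a1, a2, a3, a4, a5⟩ := hX1 X (le_trans (le_max_left _ _) hX)
    exact large2 hS hDM hCB hBIN hRG hC0 hE hPP (le_trans (le_max_right _ _) hX) a1 a2 a3 a4 a5
  obtain ⟨hfin, -⟩ := hlarge X2 le_rfl
  set N1 : ℕ := {s : ℕ × ℕ × ℕ × ℕ | IsSol X2 s ∧ R2 s}.ncard with hN1
  set w3 : ℝ := Real.sqrt (Real.log 3 * Real.log (Real.log 3)) with hw3
  have hlog3 : 1 < Real.log 3 := by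
    rw [Real.lt_log_iff_exp_lt (by norm_num)]
    have := Real.exp_one_lt_d9
    linarith
  have hll3 : 0 < Real.log (Real.log 3) := Real.log_pos hlog3
  have hw3pos : 0 < w3 := Real.sqrt_pos.mpr (by positivity)
  refine ⟨max 1000 (Real.log (N1 + 1) / w3), ?_⟩
  intro X hX
  have hXr : (3 : ℝ) ≤ X := by exact_mod_cast hX
  have hlogX : Real.log 3 ≤ Real.log X := Real.log_le_log (by norm_num) hXr
  have hllX : Real.log (Real.log 3) ≤ Real.log (Real.log X) :=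
    Real.log_le_log (by linarith) hlogX
  have hw : w3 ≤ Real.sqrt (Real.log X * Real.log (Real.log X)) := by
    apply Real.sqrt_le_sqrt
    exact mul_le_mul hlogX hllX hll3.le (by linarith)
  rcases le_total X2 X with h | h
  · obtain ⟨f1, f2⟩ := hlarge X h
    refine ⟨f1, f2.trans (Real.exp_le_exp.mpr ?_)⟩
    exact mul_le_mul_of_nonneg_right (le_max_left _ _) (Real.sqrt_nonneg _)
  · have hsub : {s : ℕ × ℕ × ℕ × ℕ | IsSol X s ∧ R2 s} ⊆
        {s : ℕ × ℕ × ℕ × ℕ | IsSol X2 s ∧ R2 s} := fun s hs => ⟨hs.1.mono h, hs.2⟩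
    refine ⟨hfin.subset hsub, ?_⟩
    have h1 : (({s : ℕ × ℕ × ℕ × ℕ | IsSol X s ∧ R2 s}.ncard : ℕ) : ℝ) ≤ (N1 : ℝ) := by
      exact_mod_cast Set.ncard_le_ncard hsub hfin
    refine h1.trans ?_
    have h2 : (0 : ℝ) < (N1 : ℝ) + 1 := by positivity
    calc (N1 : ℝ) ≤ (N1 : ℝ) + 1 := by linarith
      _ = Real.exp (Real.log ((N1 : ℝ) + 1)) := (Real.exp_log h2).symm
      _ ≤ _ := by
        apply Real.exp_le_exp.mpr
        have h3 : 0 ≤ Real.log ((N1 : ℝ) + 1) := Real.log_nonneg (by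
          have : (0 : ℝ) ≤ N1 := Nat.cast_nonneg _
          linarith)
        calc Real.log ((N1 : ℝ) + 1) = Real.log ((N1 : ℝ) + 1) / w3 * w3 := by
              field_simp
          _ ≤ max 1000 (Real.log ((N1 : ℝ) + 1) / w3) *
              Real.sqrt (Real.log X * Real.log (Real.log X)) := by
            apply mul_le_mul (le_max_right _ _) hw hw3pos.le
            exact le_trans (by norm_num) (le_max_left _ _)

end Pool.Agent.Helper7.BM
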