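import Mathlib

/-!
# Project BM (MP_57df85_nt, Bateman's equation `σ(p,a) = σ(q,b)`): packets

THEOREM 1.  For all `n ≥ 5`, `ε > 0` the number of solutions `(p,a,q,b)`, `p < q ≤ X` primes, whose larger exponent `a` is not
in `{5,...,n-1}` is at most `C X^(1/n+ε)` (`n = 5`: all solutions).
THEOREM 2.  The number of solutions with `q ≤ X` and odd common value (or with `gcd(a,b) ≥ 2`) is at most
`exp(C sqrt(log X loglog X))`.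

Parts: (I) Baker's method (Hermite interpolation on the real line with approximate zeros) gives `a ≤ C (log q)^115`;
(II) Runge's method for `gcd(a,b) ≥ 2`; (III) the `p`-adic determinant method for the curves `σ(x,a) = σ(y,b)`, uniform
in the exponents; (IV) assembly.

Every packet is one `Prop` `StmtXXX` below; its docstring is a complete proof.  Other packets named in a docstring
are hypotheses of the statement (or may be assumed proved, as indicated).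
-/

set_option autoImplicit false

open Finset Filter Topology
open scoped ContDiff

namespace Pool.Agent.Helper7.BM

/-- `σ(x,m) = 1 + x + ... + x^m` -/
def sg (x m : ℕ) : ℕ := ∑ i ∈ range (m + 1), x ^ i

/-! ## Part I: Baker's method -/

/-- PACKET SIEG (Siegel's lemma, 0.7 h).
Proof.  If `κ` is empty take `c = 1`.  Otherwise `Int.Matrix.exists_ne_zero_int_vec_norm_le (Matrix.of a)`:
`m = card κ`, `n = card ι`, `m < n` (as `2m ≤ n`, `m ≥ 1`); `‖c‖ ≤ (n * max 1 ‖A‖) ^ (m / (n - m))`, the base is between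
`1` and `n * B` (sup norm of the matrix, `B ≥ 1`), the exponent is in `[0,1]`. -/
def StmtSIEG : Prop := ∀ (ι κ : Type) [Fintype ι] [Fintype κ] (a : κ → ι → ℤ) (B : ℝ), 1 ≤ B →
  2 * Fintype.card κ ≤ Fintype.card ι → 0 < Fintype.card ι → (∀ k i, |((a k i : ℤ) : ℝ)| ≤ B) →
  ∃ c : ι → ℤ, c ≠ 0 ∧ (∀ k, ∑ i, a k i * c i = 0) ∧ ∀ i, |((c i : ℤ) : ℝ)| ≤ Fintype.card ι * B

/-- PACKET ROL (Rolle's theorem with multiplicities, 1.5 h).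
Proof.  Induction on `N = ∑ z ∈ Z, m z` (for all `f`, `Z`, `m`).  `N = 1`: `Z = {z}`, `m z = 1`, take `τ = z`.
`N ≥ 2`: let `z_1 < ... < z_k` be the elements of `Z`.  By Rolle there is `w_i ∈ (z_i, z_{i+1})` with `f' (w_i) = 0`.
Let `Z' = {z ∈ Z | 2 ≤ m z} ∪ {w_1, ..., w_{k-1}}`, `m' z = m z - 1` on the first set, `m' = 1` on the `w_i`.  Then
`∑ m' = ∑ (m z - 1) + (k - 1) = N - 1 ≥ 1` and `f' = deriv f` has these zeros (`iteratedDeriv j (deriv f) =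
iteratedDeriv (j+1) f`, `iteratedDeriv_succ'`).  By induction `iteratedDeriv (N - 2) (deriv f) τ = 0`. -/
def StmtROL : Prop := ∀ (f : ℝ → ℝ) (Z : Finset ℝ) (m : ℝ → ℕ) (a b : ℝ), ContDiff ℝ ∞ f →
  Z.Nonempty → (∀ z ∈ Z, z ∈ Set.Icc a b ∧ 1 ≤ m z ∧ ∀ j < m z, iteratedDeriv j f z = 0) →
  ∃ τ ∈ Set.Icc a b, iteratedDeriv ((∑ z ∈ Z, m z) - 1) f τ = 0

/-- PACKET HERM (Hermite interpolation polynomial with bounded coefficients, 2 h).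
Proof.  Let `n = T * S`.  Let `A` be the square matrix with rows indexed by the pairs `(j, l)`, `j < T`, `1 ≤ l ≤ S`
(use `finProdFinEquiv : Fin T × Fin S ≃ Fin (T * S)`), columns by `k < n`, and entries
`(derivative^[j] (X ^ k)).eval l = k.descFactorial j * l ^ (k - j)`: integers of absolute value
`≤ n ^ n * S ^ n = (n S)^n =: E`.  `A` is injective: if `A a = 0` then `P = ∑ a_k X^k` has degree `< n` and
`(X - l)^T ∣ P` for all `l` (all derivatives of order `< T` vanish at `l`), so `∏_l (X - l)^T ∣ P` (pairwise coprime),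
a polynomial of degree `n`, so `P = 0`.  Hence `det A ≠ 0`, and `|det A| ≥ 1` because it is an integer.
Cramer (`Matrix.cramer`, `Matrix.mulVec_cramer`): the solution of `A a = y` is `a_k = det (A with column k replaced by y) /
det A`; expanding along permutations the numerator is at most `n! * η * E^(n-1)` (`E ≥ 1`), and
`n! * E^(n-1) ≤ n^n (n S)^(n (n-1)) ≤ (n S)^(2 n^2)`. -/
def StmtHERM : Prop := ∀ (S T : ℕ) (y : ℕ → ℕ → ℝ) (η : ℝ), 1 ≤ S → 1 ≤ T → 0 ≤ η →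
  (∀ l j, |y l j| ≤ η) →
  ∃ P : Polynomial ℝ, P.natDegree < T * S ∧
    (∀ l ∈ Icc 1 S, ∀ j < T, (Polynomial.derivative^[j] P).eval (l : ℝ) = y l j) ∧
    ∀ k, |P.coeff k| ≤ η * (((T * S : ℕ) : ℝ) * S) ^ (2 * (T * S) ^ 2)

/-- PACKET HL (interpolation with approximate zeros, from ROL and HERM, 2 h).
Proof.  `n = T * S`.  Let `P` be the polynomial of HERM for `y l j = iteratedDeriv j f l` (if `1 ≤ l ≤ S`, `j < T`, and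
`0` otherwise) and `u = f - P`.  All derivatives of `u` of order `< T` vanish at `1, ..., S`, and
`iteratedDeriv n u = iteratedDeriv n f` (`deg P < n`).  Let `x ∈ [0,R]`.  Claim `|u x| ≤ B R^n / n!`: clear if
`x ∈ {1, ..., S}`.  Otherwise let `W t = ∏_{l=1..S} (t - l)^T` (monic of degree `n`) and
`φ t = u t * W x - u x * W t`: it has zeros of multiplicity `T` at `1, ..., S` and the zero `x`, so by ROL
(`Z = {1..S} ∪ {x}`, `∑ m = n + 1`) there is `τ ∈ [0,R]` with `0 = φ^(n) τ = u^(n) τ * W x - u x * n!`, and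
`|W x| ≤ R^n` because `|x - l| ≤ R`.  Finally
`|P x| ≤ ∑_{k<n} |P.coeff k| R^k ≤ n R^n η (n S)^(2n²) ≤ η (n R)^n (n R)^(2n²) ≤ η (n R)^(3n²)`. -/
def StmtHL : Prop := ∀ (f : ℝ → ℝ) (S T R : ℕ) (η B : ℝ), ContDiff ℝ ∞ f → 1 ≤ S → 1 ≤ T → S ≤ R →
  0 ≤ η → (∀ l ∈ Icc 1 S, ∀ j < T, |iteratedDeriv j f (l : ℝ)| ≤ η) →
  (∀ x ∈ Set.Icc (0 : ℝ) R, |iteratedDeriv (T * S) f x| ≤ B) →
  ∀ x ∈ Set.Icc (0 : ℝ) R, |f x| ≤ B * (R : ℝ) ^ (T * S) / (T * S).factorial +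
    η * (((T * S : ℕ) : ℝ) * R) ^ (3 * (T * S) ^ 2)

/-- PACKET NUM (numerical inequalities, 1.5 h).  `S = M^(3+s)`, `R = M^(4+s)`, `n = T * S`, `ε = exp(-M^115)`.
Preliminaries: `log M ≤ M / 2^40` for `M ≥ 2^50` (`x / log x` increases; or `log M ≤ 2 sqrt M`); `M^i ≤ M^j / 2^50`
for `i < j`; `n ≤ M^55`, `n R ≤ M^94`, `R ≤ M^39`, `2^13 M^(19+s) ≤ n`.
(1) the logarithm of the left side is at most `39 log M + 5 M^18 + T * 15 log M + M^(17+s) + log 2 + 38 log M - M^115`,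
`T ≤ M^17`, `17 + s ≤ 52`: `≤ M^53 - M^115`.
(2) `n! ≥ (n/e)^n` (`Nat.factorial` lower bound, e.g. from `Real.exp n ≥ n^n / n!`), so the left side is at most
`exp(3 M^(18+s) + 5 M^18 + 39 log M) (2 e M^14 R / n)^n` and `R / n = M / T`, `2 e M^15 / T ≤ 2 e / (2^13 M) ≤ e^(-2)`, and
`3 M^(18+s) + 5 M^18 + 39 log M ≤ 10 M^(18+s) ≤ n`: the left side is `≤ e^n e^(-2n) = e^(-n) ≤ 1/4`.
(3) `log ≤ M^(18+s) + M^53 - M^115 + 3 n² * 94 log M ≤ 2 M^53 - M^115 + M^110 * 282 log M ≤ -2`.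
(4) `log ≤ M^(18+s) + 39 log M + 5 M^18 + M^(18+s) + log 2 + 39 log M - M^115 ≤ -2`. -/
def StmtNUM : Prop := ∀ M s T : ℕ, 2 ^ 50 ≤ M → s ≤ 35 → 2 ^ 13 * M ^ 16 ≤ T → 2 * T ≤ M ^ 17 →
  ((M : ℝ) ^ 39 * Real.exp (5 * (M : ℝ) ^ 18) * (2 * (M : ℝ) ^ 14) ^ T *
      (Real.exp ((M : ℝ) ^ 14 * (M : ℝ) ^ (3 + s)) * (2 * (M : ℝ) ^ (3 + s) * Real.exp (-(M : ℝ) ^ 115)))
    ≤ Real.exp ((M : ℝ) ^ 53 - (M : ℝ) ^ 115)) ∧
  (Real.exp ((M : ℝ) ^ 14 * (M : ℝ) ^ (4 + s)) *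
      (((M : ℝ) ^ 39 * Real.exp (5 * (M : ℝ) ^ 18) * (2 * (M : ℝ) ^ 14) ^ (T * M ^ (3 + s)) *
        Real.exp (2 * (M : ℝ) ^ 14 * (M : ℝ) ^ (4 + s))) *
        ((M : ℝ) ^ (4 + s)) ^ (T * M ^ (3 + s)) / ((T * M ^ (3 + s)).factorial : ℝ)) ≤ 1 / 4) ∧
  (Real.exp ((M : ℝ) ^ 14 * (M : ℝ) ^ (4 + s)) *
      (Real.exp ((M : ℝ) ^ 53 - (M : ℝ) ^ 115) *
        (((T * M ^ (3 + s) : ℕ) : ℝ) * (M : ℝ) ^ (4 + s)) ^ (3 * (T * M ^ (3 + s)) ^ 2)) ≤ 1 / 4) ∧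
  (Real.exp ((M : ℝ) ^ 14 * (M : ℝ) ^ (4 + s)) *
      ((M : ℝ) ^ 39 * Real.exp (5 * (M : ℝ) ^ 18) *
        (Real.exp ((M : ℝ) ^ 14 * (M : ℝ) ^ (4 + s)) *
          (2 * (M : ℝ) ^ (4 + s) * Real.exp (-(M : ℝ) ^ 115)))) ≤ 1 / 4)

/-- PACKET STEP (the extrapolation step, from HL and NUM, 2.5 h).
Proof.  Fix `m1 + m2 < T`.  `C_i = c_i g1_i^m1 g2_i^m2`, `θ_i = w1 g1_i + w2 g2_i`, `f x = ∑ C_i exp(θ_i x)`; smooth,
`iteratedDeriv j f x = ∑ C_i θ_i^j exp(θ_i x)`.  `|C_i| ≤ exp(4 M^18 + M (m1 + m2)) ≤ exp(5 M^18)`; `|θ_i| ≤ |log A_i| +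
exp(-M^115) ≤ 2 M^14`.  `S = M^(3+s)`, `R = M^(4+s)`, `n = T S`.
(a) For natural `l ≤ R`: `|exp(θ_i l) - A_i^l| = A_i^l |exp((θ_i - log A_i) l) - 1| ≤ exp(M^14 l) * 2 l exp(-M^115)` since
`|exp u - 1| ≤ 2 |u|` for `|u| ≤ 1`.
(b) For `j < T`, `1 ≤ l ≤ S`: `∑ C_i θ_i^j A_i^l = 0` by the hypothesis and the binomial theorem
(`(w1 g1 + w2 g2)^j = ∑ choose (w1 g1)^k (w2 g2)^(j-k)`, `m1 + m2 + j < 2T`), so by (a)
`|iteratedDeriv j f l| ≤ M^39 exp(5 M^18) (2 M^14)^T exp(M^14 S) 2 S exp(-M^115) ≤ η := exp(M^53 - M^115)` (NUM (1)).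
(c) On `[0,R]`: `|iteratedDeriv n f| ≤ B := M^39 exp(5 M^18) (2 M^14)^n exp(2 M^14 R)`.
(d) HL: `|f l| ≤ B R^n / n! + η (n R)^(3 n²)` for `1 ≤ l ≤ R`.  With (a) (`j = 0`) the number `G = ∑ C_i A_i^l` satisfies
`|G| ≤ B R^n / n! + η (n R)^(3n²) + M^39 exp(5 M^18) exp(M^14 R) 2 R exp(-M^115)`; multiply by `D^l ≤ exp(M^14 R)`: by NUM
(2)-(4) `D^l |G| ≤ 3/4`.  But `D^l G = ∑ C_i (D A_i)^l` is an integer, so `G = 0`. -/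
def StmtSTEP : Prop := ∀ (ι : Type) [Fintype ι] (M s T D : ℕ) (c g1 g2 : ι → ℤ) (A : ι → ℝ) (w1 w2 : ℝ),
  2 ^ 50 ≤ M → s ≤ 35 → 2 ^ 13 * M ^ 16 ≤ T → 2 * T ≤ M ^ 17 → Fintype.card ι ≤ M ^ 39 →
  (∀ i, |((c i : ℤ) : ℝ)| ≤ Real.exp (4 * (M : ℝ) ^ 18)) →
  (∀ i, |((g1 i : ℤ) : ℝ)| ≤ Real.exp M ∧ |((g2 i : ℤ) : ℝ)| ≤ Real.exp M) →
  (∀ i, 0 < A i) → (∀ i, |Real.log (A i)| ≤ (M : ℝ) ^ 14) → 1 ≤ D → Real.log D ≤ (M : ℝ) ^ 14 →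
  (∀ i, ∃ k : ℤ, (D : ℝ) * A i = k) →
  (∀ i, |Real.log (A i) - (w1 * g1 i + w2 * g2 i)| ≤ Real.exp (-(M : ℝ) ^ 115)) →
  (∀ m1 m2 l : ℕ, m1 + m2 < 2 * T → 1 ≤ l → l ≤ M ^ (3 + s) →
    ∑ i, (c i : ℝ) * (g1 i : ℝ) ^ m1 * (g2 i : ℝ) ^ m2 * A i ^ l = 0) →
  ∀ m1 m2 l : ℕ, m1 + m2 < T → 1 ≤ l → l ≤ M ^ (4 + s) →
    ∑ i, (c i : ℝ) * (g1 i : ℝ) ^ m1 * (g2 i : ℝ) ^ m2 * A i ^ l = 0

/-- PACKET VAND (0.5 h).  Proof.  Order `ι` by `Fintype.equivFin`; the Vandermonde matrix of the distinct numbers `A i`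
is invertible (`Matrix.det_vandermonde_ne_zero_iff`), and the vector `c i * A i` is in the kernel of its transpose
(`l = 1, ..., card ι`), so `c i * A i = 0`, `c i = 0`. -/
def StmtVAND : Prop := ∀ (ι : Type) [Fintype ι] (c : ι → ℤ) (A : ι → ℝ), Function.Injective A →
  (∀ i, 0 < A i) → (∀ l : ℕ, 1 ≤ l → l ≤ Fintype.card ι → ∑ i, (c i : ℝ) * A i ^ l = 0) → c = 0

/-- PACKET AB (Baker's method, abstract form; from SIEG, STEP, VAND; 2 h).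
Proof.  Suppose all `|log A_i - (w1 g1_i + w2 g2_i)| ≤ exp(-M^115)`.  Let `D A_i = k_i ∈ ℤ`, `|k_i| ≤ exp(2 M^14)`.
Equations: `∑ c_i g1_i^m1 g2_i^m2 k_i^(l+1) = 0` for `m1, m2 < M^17`, `l < M^3` (`M^37` equations, index type
`Fin (M^17) × Fin (M^17) × Fin (M^3)`); if `g2 = 0` only `m2 = 0` (`M^20` equations; those with `m2 ≥ 1` are trivial).
Coefficients `≤ exp(2 M M^17 + 2 M^14 M^3) ≤ exp(3 M^18) =: B`.  SIEG: `c ≠ 0`, `|c_i| ≤ M^39 exp(3 M^18) ≤ exp(4 M^18)`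
(`39 log M ≤ M`).  Let `t = M^17 / 2^36` (division of naturals): `2^36 t ≤ M^17`, `2^13 M^16 ≤ t`.
Claim(s), `s = 0, ..., 36`: `∑ c_i g1^m1 g2^m2 A_i^l = 0` for `m1 + m2 < 2^(36-s) t`, `1 ≤ l ≤ M^(3+s)`.  Claim(0): divide
the equations by `D^l`.  Claim(s) → Claim(s+1): STEP with `T = 2^(35-s) t`.  Claim(36) with `m1 = m2 = 0` and VAND
(`card ι ≤ M^39`): `c = 0`, contradiction. -/
def StmtAB : Prop := ∀ (ι : Type) [Fintype ι] (M D : ℕ) (g1 g2 : ι → ℤ) (A : ι → ℝ) (w1 w2 : ℝ),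
  2 ^ 50 ≤ M → Fintype.card ι ≤ M ^ 39 →
  (2 * M ^ 37 ≤ Fintype.card ι ∨ (2 * M ^ 20 ≤ Fintype.card ι ∧ ∀ i, g2 i = 0)) →
  (∀ i, |((g1 i : ℤ) : ℝ)| ≤ Real.exp M ∧ |((g2 i : ℤ) : ℝ)| ≤ Real.exp M) →
  Function.Injective A → (∀ i, 0 < A i) → (∀ i, |Real.log (A i)| ≤ (M : ℝ) ^ 14) →
  1 ≤ D → Real.log D ≤ (M : ℝ) ^ 14 → (∀ i, ∃ k : ℤ, (D : ℝ) * A i = k) →
  ∃ i, Real.exp (-(M : ℝ) ^ 115) < |Real.log (A i) - (w1 * g1 i + w2 * g2 i)|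

/-- PACKET LAM (the linear form, 0.8 h).
Proof.  `(p - 1) sg p a = p^(a+1) - 1`, so with `N = sg p a = sg q b`: `log(p^(a+1) - 1) - log(p - 1) = log N =
log(q^(b+1) - 1) - log(q - 1)`.  With `u = p^(-(a+1))`, `v = q^(-(b+1))` the form is `log(1 - u) - log(1 - v)`.
`q^(b+1) = (q-1) N + 1 ≥ (p-1) N + 1 = p^(a+1)`, so `0 < v ≤ u ≤ 1/4` and the absolute value is
`≤ -log(1 - u) ≤ u / (1 - u) ≤ 2 u`. -/
def StmtLAM : Prop := ∀ p q a b : ℕ, 2 ≤ p → p < q → 1 ≤ a → 1 ≤ b → sg p a = sg q b →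
  |((b : ℝ) + 1) * Real.log q - ((a : ℝ) + 1) * Real.log p - Real.log (((q : ℝ) - 1) / ((p : ℝ) - 1))| ≤
    2 / (p : ℝ) ^ (a + 1)

/-- PACKET DEP (multiplicative dependence, 1.5 h).
Proof.  If `z = 0` then `p^x q^y = 1`, so `x = y = 0` (unique factorization), excluded.  Replacing `(x,y,z)` by its negative
`z > 0`.  `q`-adic valuation: `q` divides neither `q - 1` nor `p - 1` (`0 < p - 1 < q`), so `y = 0`.  So
`((q-1)/(p-1))^z = p^(-x)`, the left side is `> 1`, so `-x = k > 0`, `(q-1)^z = (p-1)^z p^k` in `ℕ`.  Write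
`q - 1 = p^c m`, `p ∤ m`: `p^(c z) m^z = (p-1)^z p^k` with `m^z` and `(p-1)^z` prime to `p` (`p ∤ p - 1`), so `m^z = (p-1)^z`,
`m = p - 1`, and `c ≥ 1` since `q ≠ p`. -/
def StmtDEP : Prop := ∀ p q : ℕ, p.Prime → q.Prime → p < q → ∀ x y z : ℤ, ¬ (x = 0 ∧ y = 0 ∧ z = 0) →
  (p : ℝ) ^ x * (q : ℝ) ^ y * (((q : ℝ) - 1) / ((p : ℝ) - 1)) ^ z = 1 →
  ∃ c : ℕ, 1 ≤ c ∧ q - 1 = (p - 1) * p ^ c

/-- PACKET EXI (application of AB, independent case; from AB, LAM, DEP; 2 h).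
Proof.  `b < a` (as `sg q b ≥ sg q a > sg p a` if `b ≥ a`).  `L = M^13`, `ι = Fin L × Fin L × Fin L` (`card = M^39`),
`A_λ = p^λ1 q^λ2 ((q-1)/(p-1))^λ3`, injective by DEP (quotient of two values), `D = (p-1)^L`, `|log A_λ| ≤
L (log p + log q + log((q-1)/(p-1))) ≤ 3 L log q ≤ M^14`, `log D ≤ L log q ≤ M^14`, `D A_λ` is an integer.
`g1 = λ1 - (a+1) λ3`, `g2 = λ2 + (b+1) λ3`, `w1 = log p`, `w2 = log q`; `|g| ≤ L (a + 2) ≤ exp M` because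
`a + 2 ≤ exp(M/4)`, `M^13 ≤ exp(M/2)`.  With `Λ` the linear form of LAM: `log A_λ - (w1 g1 + w2 g2) = -λ3 Λ`, of absolute
value `≤ L * 2 / p^(a+1)`. -/
def StmtEXI : Prop := ∀ p q a b M : ℕ, p.Prime → q.Prime → p < q → 1 ≤ a → 1 ≤ b → sg p a = sg q b →
  (¬ ∃ c : ℕ, 1 ≤ c ∧ q - 1 = (p - 1) * p ^ c) → 2 ^ 50 ≤ M → 3 * Real.log q ≤ M →
  4 * Real.log ((a : ℝ) + 2) ≤ M →
  Real.exp (-(M : ℝ) ^ 115) < (M : ℝ) ^ 13 * (2 / (p : ℝ) ^ (a + 1))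

/-- PACKET EXD (application of AB, dependent case; from AB, LAM; 2 h).
Proof.  `q - 1 = (p-1) p^c`, so `log((q-1)/(p-1)) = c log p`; `N = a + 1 + c`; the form of LAM is
`Λ = (b+1) log q - N log p`.  `L = M^13`, `ι = Fin L × Fin L` (`card = M^26`), `A_λ = p^λ1 q^λ2`, injective (unique
factorization), `D = 1`, `|log A_λ| ≤ 2 L log q ≤ M^14`.  `w1 = log p / (b+1)`, `w2 = 0`, `g1 = (b+1) λ1 + N λ2`, `g2 = 0`:
`log A_λ - w1 g1 = λ2 (log q - N log p / (b+1)) = λ2 Λ / (b+1)`, of absolute value `≤ L * 2 / p^(a+1)`.  `b < a`,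
`c log 2 ≤ log q`, so `c ≤ M`, and `|g1| ≤ L (2 (a+2) + M) ≤ exp M` (`a + 2 ≤ exp(M/4)`, `M^14 ≤ exp(M/2)`). -/
def StmtEXD : Prop := ∀ p q a b M : ℕ, p.Prime → q.Prime → p < q → 1 ≤ a → 1 ≤ b → sg p a = sg q b →
  (∃ c : ℕ, 1 ≤ c ∧ q - 1 = (p - 1) * p ^ c) → 2 ^ 50 ≤ M → 3 * Real.log q ≤ M →
  4 * Real.log ((a : ℝ) + 2) ≤ M →
  Real.exp (-(M : ℝ) ^ 115) < (M : ℝ) ^ 13 * (2 / (p : ℝ) ^ (a + 1))

/-- PACKET EXF (bound for the exponents, from EXI and EXD, 1.5 h).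
Proof.  `M = ⌈max (2^50) (3 log q) (4 log(a+2))⌉`.  EXI/EXD: `p^(a+1) < 2 M^13 exp(M^115)`, so
`(a+1) log 2 ≤ M^115 + log(2 M^13) ≤ 2 M^115`, `a + 1 ≤ 3 M^115`.  `M ≤ 2 max(...)`.  If the maximum is `4 log(a+2)`:
`a + 1 ≤ 3 (8 log(a+2))^115`, so `a ≤ C0` absolute (`(log x)^115 = o(x)`).  Otherwise
`a ≤ 3 (2 max(2^50, 3 log q))^115 ≤ C (log q)^115` as `log q ≥ log 3 ≥ 1`. -/
def StmtEXF : Prop := StmtEXI → StmtEXD →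
  ∃ C : ℝ, 0 < C ∧ ∀ p q a b : ℕ, p.Prime → q.Prime → p < q → 1 ≤ a → 1 ≤ b → sg p a = sg q b →
    (a : ℝ) ≤ C * Real.log q ^ 115

/-! ## Part II: Runge's method -/

/-- coefficients of `(1 - t)^(-1/d)` -/
noncomputable def cc (d k : ℕ) : ℝ := ∏ j ∈ range k, ((1 + (j : ℝ) * d) / ((d : ℝ) * ((j : ℝ) + 1)))

/-- PACKET BIN (binomial series and coefficients, 1.2 h).
Proof.  (1) `Real.one_div_one_sub_rpow_hasFPowerSeriesOnBall_zero` / `one_add_rpow_hasFPowerSeriesOnBall_zero`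
(Mathlib.Analysis.Analytic.Binomial) with `a = 1/d`; the coefficient is `Ring.choose (1/d + k - 1) k = ∏_{j<k} (1/d + j)/(j+1)`.
(2) each factor of `cc` is in `(0,1]`.  (3) `cc d k = (1/d) ∏_{1≤j<k} (1 + j d)/(d (j+1))`, factors `≤ 1` and
`≥ j/(j+1)`; telescoping.  (4) `d^k k! cc d k = ∏_{j<k} (1 + j d)`. -/
def StmtBIN : Prop := ∀ d : ℕ, 1 ≤ d →
  (∀ t : ℝ, 0 ≤ t → t < 1 → HasSum (fun k => cc d k * t ^ k) ((1 - t) ^ (-(1 / (d : ℝ))))) ∧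
  (∀ k, 0 < cc d k ∧ cc d (k + 1) ≤ cc d k) ∧
  (∀ k, 1 ≤ k → 1 / ((d : ℝ) * k) ≤ cc d k ∧ cc d k ≤ 1 / (d : ℝ)) ∧
  (∀ k, ∃ m : ℕ, (d : ℝ) ^ k * (k.factorial : ℝ) * cc d k = m)

/-- PACKET RG (Runge; from BIN; 3 h).
Proof.  Let `a = d α`, `b = d β`, `N = sg x a = sg y b`.  Suppose `x > 4 (2α+3)^α d^α`.  All powers with exponent `1/d`
are real powers.  `N + 1/(x-1) = x^(a+1)/(x-1) = x^a/(1 - 1/x)`, so `u := (N + 1/(x-1))^(1/d) = x^α (1 - 1/x)^(-1/d) =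
P + Rx`, `P = ∑_{k≤α} cc d k x^(α-k)`, `Rx = ∑_{k>α} cc d k x^(α-k)`, and `cc(α+1)/x ≤ Rx ≤ cc(α+1)/(x-1)` (`cc` positive and
decreasing, geometric series).  Similarly `v := (N + 1/(y-1))^(1/d) = Q + Ry`, `Q = ∑_{k≤β} cc d k y^(β-k)`,
`0 ≤ Ry ≤ cc(β+1)/(y-1)`.  `Δ = u - v ≥ 0` and `d v^(d-1) Δ ≤ u^d - v^d ≤ 1/(x-1)`, `v ≥ x^α` (as `N ≥ x^a`), so
`Δ ≤ 1/(d (x-1) x^2)` (`α ≥ 2`, `d ≥ 2`).  So `P - Q = Ry - Rx + Δ`.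
Size of `y`: `x^(dα) ≤ N < 2 y^(dβ)`.  If `y ≤ (2α+3) x` then `x^d ≤ x^(d(α-β)) < 2 (2α+3)^(dβ) ≤ 2 (2α+3)^(dα)`, so
`x < 2 (2α+3)^α`, contradiction.  So `y - 1 ≥ 2(α+1) x`, and
`P - Q ≤ 1/(d (y-1)) + 1/(d (x-1) x^2) - 1/(d (α+1) x) < 0` because `x (x-1) > 2 (α+1)`.
`P - Q ≥ -Rx ≥ -1/(d (x-1))`.  `E = d^α α!`: `E (Q - P)` is an integer (BIN (4), `β < α`), positive, so
`1 ≤ E / (d (x-1))`, `x ≤ 1 + d^(α-1) α! ≤ 1 + d^α α^α`, contradiction. -/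
def StmtRG : Prop := StmtBIN → ∀ d α β x y : ℕ, 2 ≤ d → 1 ≤ β → β < α → 2 ≤ x → x < y →
  sg x (d * α) = sg y (d * β) → x ≤ 4 * (2 * α + 3) ^ α * d ^ α

end Pool.Agent.Helper7.BM
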