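import Pool.Agent.Helper7.BM.Goals

/-!
# Project BM (MP_57df85_nt): packets, part III (the determinant method) and IV
-/

set_option autoImplicit false

open Finset Filter Topology

namespace Pool.Agent.Helper7.BM

/-! ## Part III: the determinant method -/

/-- PACKET NWT (Newton iteration modulo powers of a prime, 1.2 h).
Proof.  `v * g'(u2) ≡ 1 mod l`.  `ψ_0 = C u2`, `ψ_{k+1} = ψ_k - v (g(ψ_k) - f(u1 + X))`.  Claim: for all points as in the statement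
and `z = x1 - u1`: `l^(k+1) ∣ x2 - ψ_k(z)`.  `ψ_k(z) = x2 + h`, `l^(k+1) ∣ h`: `g(x2 + h) - f(x1) = g(x2 + h) - g(x2) = g'(x2) h +
h² (...)` (`Polynomial.evalSubFactor`, `Polynomial.binomExpansion`), so `ψ_{k+1}(z) - x2 ≡ h (1 - v g'(x2)) ≡ 0 mod l^(k+2)`,
because `g'(x2) ≡ g'(u2) mod l`.  Take `ψ = ψ_E`. -/
def StmtNWT : Prop := ∀ (f g : Polynomial ℤ) (l E : ℕ) (u1 u2 : ℤ), l.Prime →
  ¬ (l : ℤ) ∣ g.derivative.eval u2 →
  ∃ ψ : Polynomial ℤ, ∀ x1 x2 : ℤ, (l : ℤ) ∣ x1 - u1 → (l : ℤ) ∣ x2 - u2 → f.eval x1 = g.eval x2 →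
    (l : ℤ) ^ E ∣ x2 - ψ.eval (x1 - u1)

/-- PACKET PDET (1.5 h).
Proof.  `P j = ∑_n a_{j,n} X^n`.  By multilinearity of the determinant in the columns
(`Matrix.detRowAlternating.map_sum_finset` / `MultilinearMap.map_sum` on the transpose, `Finset.range (N+1)` with `N` a bound for the
degrees) the determinant is `∑_{n : J → range (N+1)} ∏_j a_{j,n j} * det (z_k^{n j})`.  If two `n j` are equal the last
determinant is `0`.  Otherwise `z_k = l t_k`, `det (z_k^{n j}) = l^{∑ n j} det (t_k^{n j})` (`Matrix.det_mul_row`), and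
`∑ n j ≥ 0 + 1 + ... + (card J - 1) = card J (card J - 1) / 2` (sum of `card J` different natural numbers, e.g.
`Finset.sum_range_id_le_sum` or induction on the largest one). -/
def StmtPDET : Prop := ∀ (J : Type) [Fintype J] [DecidableEq J] (P : J → Polynomial ℤ) (z : J → ℤ) (l : ℤ),
  (∀ k, l ∣ z k) →
  l ^ (Fintype.card J * (Fintype.card J - 1) / 2) ∣ (Matrix.of fun k j => (P j).eval (z k)).det

/-- PACKET DDV (divisibility of the determinant of a residue class, from NWT and PDET, 1 h).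
Proof.  `M = K1 K2`, `E = M (M-1)/2`, `ψ` from NWT.  `w_k.1 = u1 + z_k`, `l ∣ z_k`, `w_k.2 ≡ ψ(z_k) mod l^E`.  So the matrix is congruent
mod `l^E` to the matrix `((P_{ij})(z_k))`, `P_{ij} = (C u1 + X)^i ψ^j`, and so are the determinants (the image in
`ZMod (l^E)`, `Int.cast_det` / `RingHom.map_det`, or `Int.ModEq` of each term).  PDET. -/
def StmtDDV : Prop := ∀ (f g : Polynomial ℤ) (l K1 K2 : ℕ) (u1 u2 : ℤ) (w : Fin K1 × Fin K2 → ℤ × ℤ),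
  l.Prime → ¬ (l : ℤ) ∣ g.derivative.eval u2 →
  (∀ k, (l : ℤ) ∣ (w k).1 - u1 ∧ (l : ℤ) ∣ (w k).2 - u2 ∧ f.eval (w k).1 = g.eval (w k).2) →
  (l : ℤ) ^ (K1 * K2 * (K1 * K2 - 1) / 2) ∣
    (Matrix.of fun (k ij : Fin K1 × Fin K2) => (w k).1 ^ (ij.1 : ℕ) * (w k).2 ^ (ij.2 : ℕ)).det

/-- PACKET SZD (size of the determinant, 1 h).
Proof.  Each of the `M!` terms (`Matrix.det_apply`) is at most `∏_k X1^(i(σ k)) X2^(j(σ k)) = X1^(∑ i) X2^(∑ j)` and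
`∑_{(i,j)} i = K2 K1 (K1-1)/2`, `∑_{(i,j)} j = K1 K2 (K2-1)/2` (`Finset.sum_range_id`, `Fin.sum_univ_eq_sum_range`). -/
def StmtSZD : Prop := ∀ (K1 K2 X1 X2 : ℕ) (w : Fin K1 × Fin K2 → ℤ × ℤ),
  (∀ k, |(w k).1| ≤ X1 ∧ |(w k).2| ≤ X2) →
  |(Matrix.of fun (k ij : Fin K1 × Fin K2) => (w k).1 ^ (ij.1 : ℕ) * (w k).2 ^ (ij.2 : ℕ)).det| ≤
    (K1 * K2).factorial * (X1 : ℤ) ^ (K2 * (K1 * (K1 - 1) / 2)) * (X2 : ℤ) ^ (K1 * (K2 * (K2 - 1) / 2))

/-- PACKET LIN (0.8 h).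
Proof.  If the span of the vectors `V p` were the whole space `J → ℚ` it would contain a basis consisting of vectors `V p`
(`exists_linearIndependent`, `Module.finrank_fintype_fun_eq_card`), i.e. `w : J → P` with `V (w k)` linearly independent and the
determinant would not vanish.  So the span is a proper subspace and there is a nonzero linear functional vanishing on it
(`Submodule.exists_le_ker_of_lt_top`); `c j` = its value at the `j`-th unit vector. -/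
def StmtLIN : Prop := ∀ (J P : Type) [Fintype J] [DecidableEq J] (V : P → J → ℚ),
  (∀ w : J → P, (Matrix.of fun k j => V (w k) j).det = 0) →
  ∃ c : J → ℚ, c ≠ 0 ∧ ∀ p, ∑ j, c j * V p j = 0

/-- PACKET COP (coprimality, 2 h).
Proof.  `F = f(Y) - g(X)` in `ℚ[X][Y]` is monic in `Y` of degree `dα`.  Let `H ∣ F`, `H ∣ G`: `h = deg_Y H ≤ deg_Y G < α`.  Write
`F = H H'`.  Leading coefficients in `Y`: units (product 1).  The same in `X`: swapping the variables (`Polynomial.Bivariate.swap`)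
`F` becomes `-(g(X) - f(Y))` up to the names, leading coefficient `-1` in `X`, so the leading coefficients of `H`, `H'` in `X` are
units too.  Let `m = deg_X H`, `m' = deg_X H'`: `h + h' = dα`, `m + m' = dβ`.
Weights: the ring homomorphism `χ : ℚ[X][Y] → ℚ[u][t]`, `X ↦ t^α`, `Y ↦ u t^β`; `χ(P) = ∑ P_{ij} u^i t^(β i + α j)` (`i` the degree
in `Y`, `j` in `X`), so `deg_t χ(P) = w(P) = max of β i + α j over the monomials of `P``.  `deg_t` is additive on products, so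
`w(H) + w(H') = w(F) = dαβ`.  `H` contains the monomials `Y^h` and `X^m` (with coefficient a unit of `ℚ`), so
`w(H) ≥ max(β h, α m)`, same for `H'`.  As `β h + β h' = dαβ = α m + α m'` all are equalities: `β h = w(H) = α m`.
`gcd(α,β) = 1`: `α ∣ h < α`, so `h = 0` and `H` is a unit. -/
def StmtCOP : Prop := ∀ (f g : Polynomial ℚ) (d α β : ℕ), 0 < d → 0 < α → 0 < β → Nat.Coprime α β →
  f.Monic → g.Monic → f.natDegree = d * α → g.natDegree = d * β →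
  ∀ G : Polynomial (Polynomial ℚ), G ≠ 0 → G.natDegree < α →
    IsRelPrime (f.map Polynomial.C - Polynomial.C g) G

/-- PACKET ZC (number of points on an auxiliary curve, from COP, 1.2 h).
Proof.  `F = f(Y) - g(X)`, `G = ∑ c_ij X^j Y^i ≠ 0` in `ℚ[X][Y]`, `deg_Y G < K1 ≤ α`.  COP: relatively prime.  The resultant
`N(X) = F.resultant G` is not `0` (`Pool.Agent.Helper85.BL.resultant_ne_zero'`), of degree `≤ (deg_Y F + deg_Y G) * (dβ + K2) ≤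
(dα + K1)(dβ + K2)` (`Pool.Agent.Helper85.BL.natDegree_resultant_le`, file Pool/Agent/Helper85/BL/RES.lean), and vanishes at
`x2` for all points `(x1, x2)` of `Z` (`Pool.Agent.Helper85.BL.eval_resultant`, or `exists_mul_add_mul_eq_C_resultant`).  The `x2` are
different: `card Z ≤` number of roots of `N` `≤ natDegree N`. -/
def StmtZC : Prop := StmtCOP → ∀ (f g : Polynomial ℤ) (d α β K1 K2 : ℕ), 0 < d → 0 < α → 0 < β →
  Nat.Coprime α β → f.Monic → g.Monic → f.natDegree = d * α → g.natDegree = d * β → K1 ≤ α →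
  ∀ c : Fin K1 × Fin K2 → ℚ, c ≠ 0 → ∀ Z : Finset (ℤ × ℤ), (∀ z ∈ Z, f.eval z.1 = g.eval z.2) →
  (∀ z ∈ Z, ∑ ij, c ij * ((z.1 : ℚ) ^ (ij.1 : ℕ) * (z.2 : ℚ) ^ (ij.2 : ℕ)) = 0) →
  Set.InjOn Prod.snd (Z : Set (ℤ × ℤ)) → Z.card ≤ (d * α + K1) * (d * β + K2)

/-- PACKET CLS (points in one residue class, from DDV, SZD, LIN, ZC (with COP), 1 h).
Proof.  For every `w : Fin K1 × Fin K2 → Z` the determinant of the matrix `((w k).1^i (w k).2^j)` is divisible by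
`l^(M(M-1)/2)` (DDV, `u = (u1,u2)`) and smaller in absolute value (SZD), so it is `0`.  LIN (with `P` the subtype of `Z`, the integer
determinant cast to `ℚ`) gives `c ≠ 0` and ZC gives the bound. -/
def StmtCLS : Prop := ∀ (f g : Polynomial ℤ) (d α β K1 K2 X1 X2 l : ℕ) (u1 u2 : ℤ), 0 < d → 0 < α → 0 < β →
  Nat.Coprime α β → f.Monic → g.Monic → f.natDegree = d * α → g.natDegree = d * β → K1 ≤ α →
  l.Prime → ¬ (l : ℤ) ∣ g.derivative.eval u2 →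
  (K1 * K2).factorial * X1 ^ (K2 * (K1 * (K1 - 1) / 2)) * X2 ^ (K1 * (K2 * (K2 - 1) / 2)) <
    l ^ (K1 * K2 * (K1 * K2 - 1) / 2) →
  ∀ Z : Finset (ℤ × ℤ), (∀ z ∈ Z, f.eval z.1 = g.eval z.2 ∧ |z.1| ≤ X1 ∧ |z.2| ≤ X2 ∧
    (l : ℤ) ∣ z.1 - u1 ∧ (l : ℤ) ∣ z.2 - u2) →
  Set.InjOn Prod.snd (Z : Set (ℤ × ℤ)) → Z.card ≤ (d * α + K1) * (d * β + K2)

/-- PACKET DM (the determinant method, from CLS, 1.5 h).
Proof.  For `z ∈ Z` there is `l ∈ 𝓛` not dividing `g'(z.2)` (otherwise the product of the different primes of `𝓛` divides this number,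
which is not `0` and smaller in absolute value).  So `Z` is the union over `l ∈ 𝓛` of `Z_l = {z | l ∤ g'(z.2)}`.  Map `z ∈ Z_l` to
`(z.1 mod l, z.2 mod l)` in `ZMod l × ZMod l`: the image has at most `dα * l` elements (for every `u2` the monic polynomial
`f - g(u2)` of degree `dα ≥ 1` over the field `ZMod l` has at most `dα` roots) and every fibre has at most
`(dα + K1)(dβ + K2)` elements by CLS (`u1, u2` representatives; `l ∤ g'(u2)` as `u2 ≡ z.2`). -/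
def StmtDM : Prop := ∀ (f g : Polynomial ℤ) (d α β K1 K2 X1 X2 : ℕ) (LL : Finset ℕ), 0 < d → 0 < α → 0 < β →
  Nat.Coprime α β → f.Monic → g.Monic → f.natDegree = d * α → g.natDegree = d * β → K1 ≤ α →
  (∀ l ∈ LL, l.Prime ∧
    (K1 * K2).factorial * X1 ^ (K2 * (K1 * (K1 - 1) / 2)) * X2 ^ (K1 * (K2 * (K2 - 1) / 2)) <
      l ^ (K1 * K2 * (K1 * K2 - 1) / 2)) →
  ∀ Z : Finset (ℤ × ℤ), (∀ z ∈ Z, f.eval z.1 = g.eval z.2 ∧ |z.1| ≤ X1 ∧ |z.2| ≤ X2 ∧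
    g.derivative.eval z.2 ≠ 0 ∧ |g.derivative.eval z.2| < ∏ l ∈ LL, (l : ℤ)) →
  Set.InjOn Prod.snd (Z : Set (ℤ × ℤ)) →
  Z.card ≤ ∑ l ∈ LL, d * α * l * ((d * α + K1) * (d * β + K2))

/-- PACKET PP (product of primes, 1 h).
Proof.  Mathlib.NumberTheory.Chebyshev: `θ(n²) ≥ n² log 2 - log(n²+1) - 2 n log(n²)` (`Chebyshev.theta_ge`) and
`θ(n) ≤ n log 4` (`Chebyshev.theta_le_log4_mul_x`); the difference is the logarithm of the product and is `≥ n log 2` for large `n`. -/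
def StmtPP : Prop := ∃ n0 : ℕ, ∀ n : ℕ, n0 ≤ n → 2 ^ n ≤ ∏ l ∈ (Ioc n (n ^ 2)).filter Nat.Prime, l

/-- PACKET BD (0.4 h).
Proof.  Induction on `k` with Bertrand's postulate (`Nat.exists_prime_lt_and_le_two_mul`). -/
def StmtBD : Prop := ∀ n k : ℕ, 1 ≤ n → ∃ LL : Finset ℕ, LL.card = k ∧
  ∀ l ∈ LL, l.Prime ∧ n < l ∧ l ≤ 2 ^ k * n

/-- the polynomial `1 + X + ... + X^m` -/
noncomputable def sgp (m : ℕ) : Polynomial ℤ := ∑ i ∈ range (m + 1), Polynomial.X ^ i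

/-- PACKET SGP (the polynomial `σ(·,m)`, 0.8 h).
Proof.  `sgp m = ∑_{i ≤ m} X^i` is monic of degree `m` (`Polynomial.monic_geom_sum_X`), `eval x = sg x m` for naturals, the
derivative at `x ≥ 1` is `∑_{1≤j≤m} j x^(j-1)`, between `1` and `m * m * x^(m-1) ≤ m² x^m`.  Monotonicity is clear.
Last part: `∑_{i ≤ m} x^i < 2 x^m` for `x ≥ 2` by induction on `m` (or `(x - 1) sg x m < x^(m+1) ≤ 2 (x-1) x^m`). -/
def StmtSGP : Prop :=
  (∀ m, (sgp m).Monic ∧ (sgp m).natDegree = m) ∧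
  (∀ m x : ℕ, (sgp m).eval (x : ℤ) = sg x m) ∧
  (∀ m x : ℕ, 1 ≤ m → 1 ≤ x → 0 < (sgp m).derivative.eval (x : ℤ) ∧
    (sgp m).derivative.eval (x : ℤ) ≤ (m : ℤ) ^ 2 * (x : ℤ) ^ m) ∧
  (∀ m x y : ℕ, 1 ≤ m → 1 ≤ x → x < y → sg x m < sg y m) ∧
  (∀ m n x : ℕ, 1 ≤ x → m < n → sg x m < sg x n) ∧
  (∀ m x : ℕ, 2 ≤ x → x ^ m ≤ sg x m ∧ sg x m < 2 * x ^ m)

/-- pairs of integers `2 ≤ x < y ≤ X` with `σ(x,a) = σ(y,b)` -/
def Pr (a b X : ℕ) : Finset (ℕ × ℕ) :=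
  ((range (X + 1)) ×ˢ (range (X + 1))).filter (fun z => 2 ≤ z.1 ∧ z.1 < z.2 ∧ sg z.1 a = sg z.2 b)

/-- PACKET CB (large `α`; from DM and SGP; 1.5 h).
Proof.  DM with `f = sgp a`, `g = sgp b`, `K1 = K2 = K ≤ α`, `X1 = X2 = X`, `LL` the primes in `(n, n²]`, `n = 3 Y²`,
`Z` the image of `Pr a b X` (casts).  `x1` is determined by `x2` (`sg · a` strictly increasing).  Derivative:
`g'(y) ≤ b² X^b < 2^n ≤ ∏ l`.  Determinant condition (`M = K²`, `K (K(K-1)/2) + K (K(K-1)/2) = K²(K-1)`):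
`M! X^(K²(K-1)) ≤ 3^(M(M-1)/2) Y^(K³(K-1)) ≤ (3Y²)^(M(M-1)/2) < l^(M(M-1)/2)`, since `M! ≤ ∏_{k≤M} 3^(k-1)` and
`M(M-1) = K²(K-1)(K+1) ≥ K³(K-1)`.  Sum: at most `n²` primes, each `≤ n²`:
`n² * a * n² * (a + K)(b + K) ≤ a n⁴ (2a)(2a) = 4 a³ 81 Y⁸` (`K ≤ α ≤ a`, `b ≤ a`). -/
def StmtCB : Prop := StmtDM → StmtSGP → ∀ K Y X a b d α β : ℕ, 2 ≤ K → 1 ≤ Y → X ≤ Y ^ K →
  2 ^ (3 * Y ^ 2) ≤ (∏ l ∈ (Ioc (3 * Y ^ 2) ((3 * Y ^ 2) ^ 2)).filter Nat.Prime, l) →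
  0 < d → 0 < β → Nat.Coprime α β → a = d * α → b = d * β → K ≤ α → b ≤ a →
  b ^ 2 * X ^ b < 2 ^ (3 * Y ^ 2) → (Pr a b X).card ≤ 324 * a ^ 3 * Y ^ 8

/-- PACKET CC (small coprime exponents; from DM, SGP and BD; 2 h).
Proof.  DM with the roles exchanged: `f = sgp b`, `g = sgp a`, `d = 1`, `α = b`, `β = a`, points `(y, x)` for `(x,y)` in `Pr a b X`, `K1 = b`,
`K2 = k`, `X1 = W^a`, `X2 = 2 W^b`: `x^a ≤ sg x a = sg y b < 2 y^b ≤ 2 W^(ab)`, so `x ≤ 2 W^b` (`2^a ≥ 2`).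
`LL` from BD with `n = 6 W V` and `k' = a b + 2 a` primes: the product is `≥ (6W)^(k')`, and
`g'(x) ≤ a² x^a ≤ a² 2^a W^(ab) < 6^(k') W^(k')` (`a² ≤ 4^a`).  Determinant condition, `M = b k`, `E = M (M-1)/2`, for `l > 6 W V`:
exponent of `W` on the left: `a k b(b-1)/2 + b b k (k-1)/2 = (M/2) (a (b-1) + b (k-1))`; `(WV)^E`: `V^(M (M-1)/2) ≥
V^(k (M/2)(b-1)) ≥ W^(a (M/2)(b-1))` as `M - 1 = b k - 1 ≥ k (b-1)` and `V^k ≥ W^a`, and `W^(M(M-1)/2) ≥ W^((M/2) b (k-1))` as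
`bk - 1 ≥ b (k-1)`; constants: `M! 2^(b k (k-1)/2) ≤ 3^E 2^E` (`M! ≤ 3^(M(M-1)/2)`).  Strict because `l > 6 W V` and `E ≥ 1`.
Sum: `≤ k' * b * 2^(k') * 6 W V * (2b)(a + k)`: `C = 12 b² (a+k) k' 2^(k')`. -/
def StmtCC : Prop := StmtDM → StmtSGP → StmtBD → ∀ a b k : ℕ, 2 ≤ b → b < a → Nat.Coprime a b → 2 ≤ k →
  ∃ C : ℕ, ∀ X W V : ℕ, 1 ≤ W → 1 ≤ V → X ≤ W ^ a → W ^ a ≤ V ^ k → (Pr a b X).card ≤ C * (W * V)

end Pool.Agent.Helper7.BM
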