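import Pool.Agent.Helper1.BM.EXF
import Pool.Agent.Helper1.BM.NUM
import Pool.Agent.Helper1.BM.PDET
import Pool.Agent.Helper12.BM.BD
import Pool.Agent.Helper12.BM.DM
import Pool.Agent.Helper14.BM.CC
import Pool.Agent.Helper16.BM.ROL
import Pool.Agent.Helper24.BM.LAM
import Pool.Agent.Helper28.BM.BIN
import Pool.Agent.Helper29.BM.CLS
import Pool.Agent.Helper29.BM.NWT
import Pool.Agent.Helper3.BM.SGP
import Pool.Agent.Helper3.BM.SIEG
import Pool.Agent.Helper36.BM.ZC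
import Pool.Agent.Helper39.BM.DEP
import Pool.Agent.Helper41.BM.STEP
import Pool.Agent.Helper50.BM.AB
import Pool.Agent.Helper59.BM.PP
import Pool.Agent.Helper69.BM.DDV
import Pool.Agent.Helper74.BM.RG
import Pool.Agent.Helper77.BM.CB
import Pool.Agent.Helper77.BM.HERM
import Pool.Agent.Helper78.BM.COP
import Pool.Agent.Helper78.BM.EXI
import Pool.Agent.Helper79.BM.HL
import Pool.Agent.Helper86.BM.LIN
import Pool.Agent.Helper86.BM.VAND
import Pool.Agent.Helper89.BM.SZD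
import Pool.Agent.Helper98.BM.EXD
import Pool.Agent.Helper7.BM.Fin1

/-!
# Project BM (MP_57df85_nt): all packets put together
-/

set_option autoImplicit false

open Finset

namespace Pool.Agent.Helper7.BM

theorem pHL : StmtHL := Helper79.BM.hl Helper16.BM.rol Helper77.BM.herm
theorem pSTEP : StmtSTEP := Helper41.BM.step pHL Helper1.BM.num
theorem pAB : StmtAB := Helper50.BM.ab Helper3.BM.sieg pSTEP Helper86.BM.vand
theorem pEXI : StmtEXI := Helper78.BM.exi pAB Helper24.BM.lam Helper39.BM.dep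
theorem pEXD : StmtEXD := Helper98.BM.exd pAB Helper24.BM.lam
theorem pE : ExpBound := Helper1.BM.exf pEXI pEXD
theorem pDDV : StmtDDV := Helper69.BM.ddv Helper29.BM.nwt Helper1.BM.pdet
theorem pCLS : StmtCLS := Helper29.BM.cls pDDV Helper89.BM.szd Helper86.BM.lin Helper36.BM.zc Helper78.BM.cop
theorem pDM : StmtDM := Helper12.BM.dm pCLS

/-- Theorem 1 -/
theorem main1 (n : ℕ) (hn : 5 ≤ n) (ε : ℝ) (hε : 0 < ε) :
    ∃ C : ℝ, ∀ X : ℕ, {s : ℕ × ℕ × ℕ × ℕ | IsSol X s ∧ R1 n s}.Finite ∧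
      (({s : ℕ × ℕ × ℕ × ℕ | IsSol X s ∧ R1 n s}.ncard : ℕ) : ℝ) ≤
        C * (X : ℝ) ^ ((1 : ℝ) / n + ε) :=
  fin1 Helper3.BM.sgpol pDM Helper77.BM.cb Helper28.BM.bin Helper74.BM.rg Helper59.BM.pp
    Helper14.BM.cc_case Helper12.BM.bd pE n hn ε hε

/-- Theorem 2 -/
theorem main2 : ∃ C : ℝ, ∀ X : ℕ, 3 ≤ X → {s : ℕ × ℕ × ℕ × ℕ | IsSol X s ∧ R2 s}.Finite ∧
      (({s : ℕ × ℕ × ℕ × ℕ | IsSol X s ∧ R2 s}.ncard : ℕ) : ℝ) ≤
        Real.exp (C * Real.sqrt (Real.log X * Real.log (Real.log X))) :=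
  fin2 Helper3.BM.sgpol pDM Helper77.BM.cb Helper28.BM.bin Helper74.BM.rg Helper59.BM.pp pE

end Pool.Agent.Helper7.BM
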